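import Mathlib.MeasureTheory.Integral.Bochner.Basic
import Mathlib.MeasureTheory.Measure.Haar.OfBasis
import Mathlib.Analysis.Normed.Lp.MeasurableSpace

/-!
Definitions for the polarization inequality for the negative eigenvalue of the
logarithmic potential operator in the plane.
-/

set_option autoImplicit false

open MeasureTheory Filter

namespace Pool.Agent.MP_86d647_an

/-- The Euclidean plane. -/
abbrev Plane : Type := EuclideanSpace ℝ (Fin 2)

/-- The logarithmic potential `(L u)(x) = ∫_Ω log (1 / |x - y|) u(y) dy`. -/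
noncomputable def logPot (Ω : Set Plane) (u : Plane → ℝ) (x : Plane) : ℝ :=
  ∫ y in Ω, Real.log (1 / dist x y) * u y

/-- `τ` is an eigenvalue of the logarithmic potential operator on `L²(Ω)`. -/
def IsEigenvalue (Ω : Set Plane) (τ : ℝ) : Prop :=
  ∃ u : Plane → ℝ, MemLp u 2 (volume.restrict Ω) ∧ ¬ (u =ᵐ[volume.restrict Ω] 0) ∧
    logPot Ω u =ᵐ[volume.restrict Ω] fun x => τ * u x

/-- The `n`-th diameter: the maximum over `z₁, …, zₙ ∈ K` of
`∏_{i<j} |zᵢ - zⱼ| ^ (2 / (n (n - 1)))`. -/
noncomputable def nthDiam (K : Set Plane) (n : ℕ) : ℝ :=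
  ⨆ z : Fin n → K, ∏ i : Fin n, ∏ j ∈ Finset.Ioi i,
    dist (z i : Plane) (z j : Plane) ^ ((2 : ℝ) / ((n : ℝ) * ((n : ℝ) - 1)))

/-- The transfinite diameter: the limit of the `n`-th diameters. -/
noncomputable def transDiam (K : Set Plane) : ℝ :=
  limUnder atTop (nthDiam K)

/-- The negative eigenvalue of the logarithmic potential operator when the transfinite diameter
of the closure exceeds `1` (as the least negative eigenvalue), and `0` otherwise. -/
noncomputable def negEigenvalue (Ω : Set Plane) : ℝ :=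
  if 1 < transDiam (closure Ω) then sInf {τ : ℝ | τ < 0 ∧ IsEigenvalue Ω τ} else 0

/-- The open half-plane `{x | ⟨n, x⟩ < c}`. -/
def halfPlane (n : Plane) (c : ℝ) : Set Plane :=
  {x | inner ℝ n x < c}

/-- The reflection in the line `{x | ⟨n, x⟩ = c}`, for a unit vector `n`. -/
noncomputable def reflect (n : Plane) (c : ℝ) (x : Plane) : Plane :=
  x + (2 * (c - inner ℝ n x)) • n

/-- The polarization of `Ω` with respect to the half-plane `{x | ⟨n, x⟩ < c}`. -/
def polarize (n : Plane) (c : ℝ) (Ω : Set Plane) : Set Plane :=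
  ((Ω ∪ reflect n c '' Ω) ∩ halfPlane n c) ∪ ((Ω ∩ reflect n c '' Ω) \ halfPlane n c)

end Pool.Agent.MP_86d647_an
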