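import Mathlib.Topology.Sheaves.Presheaf
import Mathlib.Tactic.Monotonicity.Lemmas
import Mathlib.Algebra.Order.Star.Real
import Mathlib.Analysis.SpecialFunctions.Gaussian.FourierTransform
import Mathlib.Analysis.SpecialFunctions.FrullaniIntegral
import Pool.Agent.MP_86d647_an.Defs

-- ======== part 0: formerly Pool.Agent.MP_86d647_an.Heat
section MrgPart0

/-!
The planar heat kernel and its Laplace transform in time (the resolvent kernel).
-/

set_option autoImplicit false

open MeasureTheory Filter Set Real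
open scoped ENNReal Topology

namespace Pool.Agent.MP_86d647_an

/-- The planar heat kernel. -/
noncomputable def heat (t : ℝ) (x : Plane) : ℝ :=
  (4 * π * t)⁻¹ * exp (-(‖x‖ ^ 2 / (4 * t)))

lemma heat_nonneg {t : ℝ} (ht : 0 < t) (x : Plane) : 0 ≤ heat t x := by
  unfold heat; positivity

lemma heat_neg (t : ℝ) (x : Plane) : heat t (-x) = heat t x := by
  simp [heat]

lemma heat_anti {t : ℝ} (ht : 0 < t) {x y : Plane} (h : ‖x‖ ≤ ‖y‖) : heat t y ≤ heat t x := by
  unfold heat
  have h2 : ‖x‖ ^ 2 ≤ ‖y‖ ^ 2 := by gcongr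
  gcongr

@[fun_prop]
lemma measurable_heat {α : Type} [MeasurableSpace α] {f : α → ℝ} {g : α → Plane}
    (hf : Measurable f) (hg : Measurable g) : Measurable fun a => heat (f a) (g a) := by
  unfold heat
  fun_prop

lemma integral_gauss {β : ℝ} (hβ : 0 < β) (c : Plane) :
    ∫ y : Plane, exp (-β * ‖y - c‖ ^ 2) = π / β := by
  rw [integral_sub_right_eq_self (fun y : Plane => exp (-β * ‖y‖ ^ 2)) c,
    GaussianFourier.integral_rexp_neg_mul_sq_norm hβ]
  simp

lemma lintegral_gauss {β : ℝ} (hβ : 0 < β) (c : Plane) :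
    ∫⁻ y : Plane, ENNReal.ofReal (exp (-β * ‖y - c‖ ^ 2)) = ENNReal.ofReal (π / β) := by
  have hne : ∫ y : Plane, exp (-β * ‖y - c‖ ^ 2) ≠ 0 := by
    rw [integral_gauss hβ]; positivity
  rw [← integral_gauss hβ c, ofReal_integral_eq_lintegral_ofReal
    (Integrable.of_integral_ne_zero hne) (Eventually.of_forall fun y => (exp_pos _).le)]

lemma lintegral_heat {t : ℝ} (ht : 0 < t) :
    ∫⁻ x : Plane, ENNReal.ofReal (heat t x) = 1 := by
  have h1 : ∀ x : Plane, ENNReal.ofReal (heat t x) =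
      ENNReal.ofReal ((4 * π * t)⁻¹) * ENNReal.ofReal (exp (-(4 * t)⁻¹ * ‖x - 0‖ ^ 2)) := by
    intro x
    rw [← ENNReal.ofReal_mul (by positivity), heat]
    congr 3
    rw [sub_zero]; field_simp
  simp_rw [h1]
  rw [lintegral_const_mul _ (by fun_prop), lintegral_gauss (by positivity),
    ← ENNReal.ofReal_mul (by positivity)]
  have : (4 * π * t)⁻¹ * (π / (4 * t)⁻¹) = 1 := by field_simp
  rw [this, ENNReal.ofReal_one]

lemma heat_mul_heat {s t : ℝ} (hs : 0 < s) (ht : 0 < t) (x y : Plane) :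
    heat s (x - y) * heat t y =
      (heat (s + t) x * ((s + t) / (4 * s * t) / π)) *
        exp (-((s + t) / (4 * s * t)) * ‖y - (t / (s + t)) • x‖ ^ 2) := by
  have hst : 0 < s + t := by positivity
  have e1 : ‖x - y‖ ^ 2 = ‖x‖ ^ 2 - 2 * inner ℝ x y + ‖y‖ ^ 2 := norm_sub_sq_real x y
  have e2 : ‖y - (t / (s + t)) • x‖ ^ 2 =
      ‖y‖ ^ 2 - 2 * ((t / (s + t)) * inner ℝ x y) + (t / (s + t)) ^ 2 * ‖x‖ ^ 2 := by
    rw [norm_sub_sq_real, real_inner_smul_right, real_inner_comm, norm_smul, mul_pow,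
      Real.norm_eq_abs, sq_abs]
  have e3 : -(‖x - y‖ ^ 2 / (4 * s)) + -(‖y‖ ^ 2 / (4 * t)) =
      -(‖x‖ ^ 2 / (4 * (s + t))) +
        -((s + t) / (4 * s * t)) * ‖y - (t / (s + t)) • x‖ ^ 2 := by
    rw [e1, e2]; field_simp; ring
  unfold heat
  calc (4 * π * s)⁻¹ * exp (-(‖x - y‖ ^ 2 / (4 * s))) *
        ((4 * π * t)⁻¹ * exp (-(‖y‖ ^ 2 / (4 * t))))
      = (4 * π * s)⁻¹ * (4 * π * t)⁻¹ *
          exp (-(‖x - y‖ ^ 2 / (4 * s)) + -(‖y‖ ^ 2 / (4 * t))) := by
        rw [Real.exp_add]; ring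
    _ = _ := by
        rw [e3, Real.exp_add]; field_simp

lemma lintegral_heat_mul {s t : ℝ} (hs : 0 < s) (ht : 0 < t) (x : Plane) :
    ∫⁻ y : Plane, ENNReal.ofReal (heat s (x - y) * heat t y) =
      ENNReal.ofReal (heat (s + t) x) := by
  have hst : 0 < s + t := by positivity
  have h0 := heat_nonneg hst x
  simp_rw [heat_mul_heat hs ht]
  have h1 : ∀ y : Plane, ENNReal.ofReal ((heat (s + t) x * ((s + t) / (4 * s * t) / π)) *
        exp (-((s + t) / (4 * s * t)) * ‖y - (t / (s + t)) • x‖ ^ 2)) =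
      ENNReal.ofReal (heat (s + t) x * ((s + t) / (4 * s * t) / π)) *
        ENNReal.ofReal (exp (-((s + t) / (4 * s * t)) * ‖y - (t / (s + t)) • x‖ ^ 2)) :=
    fun y => ENNReal.ofReal_mul (by positivity)
  simp_rw [h1]
  rw [lintegral_const_mul _ (by fun_prop), lintegral_gauss (by positivity),
    ← ENNReal.ofReal_mul (by positivity)]
  congr 1
  field_simp

/-- The resolvent kernel, with values in the extended nonnegative reals. -/
noncomputable def gE (a : ℝ) (x : Plane) : ℝ≥0∞ :=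
  ∫⁻ t in Ioi (0 : ℝ), ENNReal.ofReal (exp (-a * t) * heat t x)

lemma measurable_gE (a : ℝ) : Measurable (gE a) := by
  unfold gE
  refine Measurable.lintegral_prod_left
    (f := fun (t : ℝ) (x : Plane) => ENNReal.ofReal (exp (-a * t) * heat t x)) ?_
  unfold Function.uncurry
  fun_prop

lemma gE_neg (a : ℝ) (x : Plane) : gE a (-x) = gE a x := by
  simp [gE, heat_neg]

lemma gE_anti (a : ℝ) {x y : Plane} (h : ‖x‖ ≤ ‖y‖) : gE a y ≤ gE a x := by
  unfold gE
  refine setLIntegral_mono' measurableSet_Ioi fun t ht => ?_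
  apply ENNReal.ofReal_le_ofReal
  exact mul_le_mul_of_nonneg_left (heat_anti ht h) (exp_pos _).le

lemma lintegral_exp_neg {a : ℝ} (ha : 0 < a) :
    ∫⁻ t in Ioi (0 : ℝ), ENNReal.ofReal (exp (-a * t)) = ENNReal.ofReal a⁻¹ := by
  rw [← ofReal_integral_eq_lintegral_ofReal (exp_neg_integrableOn_Ioi 0 ha)
    (Eventually.of_forall fun y => (exp_pos _).le)]
  congr 1
  rw [integral_exp_mul_Ioi (by linarith) 0]
  simp

lemma lintegral_gE {a : ℝ} (ha : 0 < a) :
    ∫⁻ x : Plane, gE a x = ENNReal.ofReal a⁻¹ := by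
  unfold gE
  rw [lintegral_lintegral_swap (by unfold Function.uncurry; fun_prop), ← lintegral_exp_neg ha]
  refine setLIntegral_congr_fun measurableSet_Ioi fun t ht => ?_
  have h1 : ∀ x : Plane, ENNReal.ofReal (exp (-a * t) * heat t x) =
      ENNReal.ofReal (exp (-a * t)) * ENNReal.ofReal (heat t x) :=
    fun x => ENNReal.ofReal_mul (exp_pos _).le
  simp only [h1]
  rw [lintegral_const_mul _ (by fun_prop), lintegral_heat ht, mul_one]

lemma lintegral_exp_Ioo {α r : ℝ} (hα : 0 < α) (hr : 0 < r) :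
    ENNReal.ofReal α * ∫⁻ s in Ioo (0 : ℝ) r, ENNReal.ofReal (exp (-α * s)) =
      ENNReal.ofReal (1 - exp (-α * r)) := by
  have hi : IntegrableOn (fun s : ℝ => exp (-α * s)) (Ioo 0 r) :=
    (exp_neg_integrableOn_Ioi 0 hα).mono_set Ioo_subset_Ioi_self
  rw [← ofReal_integral_eq_lintegral_ofReal hi (Eventually.of_forall fun y => (exp_pos _).le),
    ← ENNReal.ofReal_mul hα.le, ← integral_Ioc_eq_integral_Ioo,
    ← intervalIntegral.integral_of_le hr.le]
  congr 1
  rw [intervalIntegral.integral_comp_mul_left (fun x => exp x) (neg_ne_zero.mpr hα.ne')]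
  simp only [mul_zero, integral_exp, exp_zero, smul_eq_mul]
  field_simp
  ring

lemma gE_conv {a b : ℝ} (x : Plane) :
    ∫⁻ y : Plane, gE b (x - y) * gE a y =
      ∫⁻ s in Ioi (0 : ℝ), ∫⁻ t in Ioi (0 : ℝ),
        ENNReal.ofReal (exp (-b * s) * exp (-a * t) * heat (s + t) x) := by
  have h1 : ∀ y : Plane, gE b (x - y) * gE a y =
      ∫⁻ s in Ioi (0 : ℝ), ∫⁻ t in Ioi (0 : ℝ),
        ENNReal.ofReal (exp (-b * s) * heat s (x - y)) *
          ENNReal.ofReal (exp (-a * t) * heat t y) := by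
    intro y
    unfold gE
    rw [lintegral_lintegral_mul (by fun_prop) (by fun_prop)]
  simp_rw [h1]
  rw [lintegral_lintegral_swap]
  · refine setLIntegral_congr_fun measurableSet_Ioi fun s hs => ?_
    rw [lintegral_lintegral_swap (by unfold Function.uncurry; fun_prop)]
    refine setLIntegral_congr_fun measurableSet_Ioi fun t ht => ?_
    have h2 : ∀ y : Plane, ENNReal.ofReal (exp (-b * s) * heat s (x - y)) *
          ENNReal.ofReal (exp (-a * t) * heat t y) =
        ENNReal.ofReal (exp (-b * s) * exp (-a * t)) *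
          ENNReal.ofReal (heat s (x - y) * heat t y) := by
      intro y
      have := heat_nonneg hs (x - y)
      rw [← ENNReal.ofReal_mul (by positivity), ← ENNReal.ofReal_mul (by positivity)]
      congr 1; ring
    simp_rw [h2]
    rw [lintegral_const_mul _ (by fun_prop), lintegral_heat_mul hs ht,
      ← ENNReal.ofReal_mul (by positivity)]
  · apply Measurable.aemeasurable
    refine Measurable.lintegral_prod_right
      (f := fun (p : Plane × ℝ) (t : ℝ) => ENNReal.ofReal (exp (-b * p.2) * heat p.2 (x - p.1)) *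
          ENNReal.ofReal (exp (-a * t) * heat t p.1)) ?_
    unfold Function.uncurry
    fun_prop

/-- The resolvent identity. -/
lemma gE_resolvent {a α : ℝ} (hα : 0 < α) (x : Plane) :
    ENNReal.ofReal α * (∫⁻ y : Plane, gE (a + α) (x - y) * gE a y) + gE (a + α) x = gE a x := by
  rw [gE_conv]
  have h1 : ∀ s ∈ Ioi (0 : ℝ), ∫⁻ t in Ioi (0 : ℝ),
        ENNReal.ofReal (exp (-(a + α) * s) * exp (-a * t) * heat (s + t) x) =
      ∫⁻ r in Ioi (0 : ℝ), (Iio r).indicator (fun s => ENNReal.ofReal (exp (-α * s))) s *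
        ENNReal.ofReal (exp (-a * r) * heat r x) := by
    intro s hs
    rw [← lintegral_indicator measurableSet_Ioi, ← lintegral_indicator measurableSet_Ioi,
      ← lintegral_add_left_eq_self (fun r : ℝ => (Ioi (0 : ℝ)).indicator (fun r =>
        (Iio r).indicator (fun s => ENNReal.ofReal (exp (-α * s))) s *
          ENNReal.ofReal (exp (-a * r) * heat r x)) r) s]
    congr 1
    ext t
    by_cases ht : t ∈ Ioi (0 : ℝ)
    · have hst : s + t ∈ Ioi (0 : ℝ) := by
        simp only [mem_Ioi] at *; linarith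
      have hs' : s ∈ Iio (s + t) := by
        simp only [mem_Ioi, mem_Iio] at *; linarith
      rw [indicator_of_mem ht, indicator_of_mem hst, indicator_of_mem hs',
        ← ENNReal.ofReal_mul (exp_pos _).le]
      congr 1
      rw [← mul_assoc, ← Real.exp_add, ← Real.exp_add]
      congr 2; ring
    · have hs' : s ∉ Iio (s + t) := by
        simp only [mem_Ioi, mem_Iio] at *; linarith
      rw [indicator_of_notMem ht]
      by_cases hst : s + t ∈ Ioi (0 : ℝ)
      · rw [indicator_of_mem hst, indicator_of_notMem hs', zero_mul]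
      · rw [indicator_of_notMem hst]
  rw [setLIntegral_congr_fun measurableSet_Ioi h1, lintegral_lintegral_swap]
  · rw [← lintegral_const_mul' _ _ ENNReal.ofReal_ne_top]
    unfold gE
    rw [← lintegral_add_right _ (by fun_prop)]
    refine setLIntegral_congr_fun measurableSet_Ioi fun r hr => ?_
    rw [lintegral_mul_const _ ((by fun_prop : Measurable fun s : ℝ =>
      ENNReal.ofReal (exp (-α * s))).indicator measurableSet_Iio),
      lintegral_indicator measurableSet_Iio, Measure.restrict_restrict measurableSet_Iio,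
      Iio_inter_Ioi, ← mul_assoc, lintegral_exp_Ioo hα hr]
    have h0 := heat_nonneg hr x
    have h2 : 0 ≤ 1 - exp (-α * r) := by
      have : exp (-α * r) ≤ 1 := by
        apply exp_le_one_iff.mpr
        have : 0 < r := hr
        nlinarith
      linarith
    rw [← ENNReal.ofReal_mul h2, ← ENNReal.ofReal_add (by positivity) (by positivity)]
    congr 1
    have : exp (-(a + α) * r) = exp (-α * r) * exp (-a * r) := by
      rw [← Real.exp_add]; congr 1; ring
    rw [this]; ring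
  · apply Measurable.aemeasurable
    unfold Function.uncurry
    refine Measurable.mul ?_ (by fun_prop)
    have : (fun p : ℝ × ℝ => (Iio p.2).indicator (fun s => ENNReal.ofReal (exp (-α * s))) p.1) =
        {p : ℝ × ℝ | p.1 < p.2}.indicator (fun p => ENNReal.ofReal (exp (-α * p.1))) := by
      ext p
      simp only [indicator, mem_Iio, mem_ofPred_eq]
    rw [this]
    exact Measurable.indicator (by fun_prop) (measurableSet_lt measurable_fst measurable_snd)

end Pool.Agent.MP_86d647_an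

end MrgPart0

-- ======== part 1: formerly Pool.Agent.MP_86d647_an.LogApprox
section MrgPart1

/-!
The resolvent kernel approximates the logarithmic kernel, up to a constant, on bounded sets.
-/

set_option autoImplicit false

open MeasureTheory Filter Set Real
open scoped ENNReal Topology

namespace Pool.Agent.MP_86d647_an

/-- The real-valued resolvent kernel. -/
noncomputable def gk (a : ℝ) (x : Plane) : ℝ := (gE a x).toReal

lemma gk_nonneg (a : ℝ) (x : Plane) : 0 ≤ gk a x := ENNReal.toReal_nonneg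

lemma measurable_gk (a : ℝ) : Measurable (gk a) := (measurable_gE a).ennreal_toReal

lemma gk_neg (a : ℝ) (x : Plane) : gk a (-x) = gk a x := by
  simp [gk, gE_neg]

lemma gk_eq_integral (a : ℝ) (x : Plane) :
    gk a x = ∫ t in Ioi (0 : ℝ), exp (-a * t) * heat t x := by
  rw [integral_eq_lintegral_of_nonneg_ae]
  · rfl
  · filter_upwards [ae_restrict_mem measurableSet_Ioi] with t ht
    have := heat_nonneg ht x
    positivity
  · apply Measurable.aestronglyMeasurable
    fun_prop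

lemma exp_neg_div_le {c t : ℝ} (hc : 0 < c) (ht : 0 < t) : t⁻¹ * exp (-(c / t)) ≤ c⁻¹ := by
  have h1 : c / t ≤ exp (c / t) := by linarith [Real.add_one_le_exp (c / t)]
  have h2 : 0 < c / t := by positivity
  rw [Real.exp_neg]
  have h3 : (exp (c / t))⁻¹ ≤ (c / t)⁻¹ := inv_anti₀ h2 h1
  calc t⁻¹ * (exp (c / t))⁻¹ ≤ t⁻¹ * (c / t)⁻¹ := by gcongr
    _ = c⁻¹ := by field_simp

lemma integrableOn_F {a ρ : ℝ} (ha : 0 < a) (hρ : 0 < ρ) :
    IntegrableOn (fun t : ℝ => exp (-a * t) * (t⁻¹ * exp (-(ρ / (4 * t))))) (Ioi 0) := by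
  refine Integrable.mono' ((exp_neg_integrableOn_Ioi 0 ha).mul_const (ρ / 4)⁻¹) ?_ ?_
  · apply Measurable.aestronglyMeasurable
    fun_prop
  · filter_upwards [ae_restrict_mem measurableSet_Ioi] with t ht
    have ht' : 0 < t := ht
    rw [Real.norm_eq_abs, abs_of_nonneg (by positivity)]
    have := exp_neg_div_le (c := ρ / 4) (by positivity) ht'
    rw [div_div] at this
    gcongr

lemma gE_ne_top {a : ℝ} (ha : 0 < a) {x : Plane} (hx : x ≠ 0) : gE a x ≠ ⊤ := by
  have hρ : 0 < ‖x‖ ^ 2 := by positivity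
  have h := (integrableOn_F ha hρ).const_mul (4 * π)⁻¹
  have h2 : IntegrableOn (fun t : ℝ => exp (-a * t) * heat t x) (Ioi 0) := by
    refine h.congr (Eventually.of_forall fun t => ?_)
    simp only [heat, mul_inv]
    ring
  have h3 := h2.2
  rw [hasFiniteIntegral_iff_ofReal] at h3
  · exact h3.ne
  · filter_upwards [ae_restrict_mem measurableSet_Ioi] with t ht
    have := heat_nonneg ht x
    positivity

lemma gk_anti {a : ℝ} (ha : 0 < a) {x y : Plane} (hx : x ≠ 0) (h : ‖x‖ ≤ ‖y‖) :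
    gk a y ≤ gk a x :=
  ENNReal.toReal_mono (gE_ne_top ha hx) (gE_anti a h)

lemma integrable_gk {a : ℝ} (ha : 0 < a) : Integrable (gk a) := by
  apply integrable_toReal_of_lintegral_ne_top (measurable_gE a).aemeasurable
  rw [lintegral_gE ha]
  exact ENNReal.ofReal_ne_top

lemma ae_ne_zero : ∀ᵐ x : Plane, x ≠ 0 := by
  simp [ae_iff]

lemma integral_gk {a : ℝ} (ha : 0 < a) : ∫ x, gk a x = a⁻¹ := by
  unfold gk
  rw [integral_toReal (measurable_gE a).aemeasurable, lintegral_gE ha,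
    ENNReal.toReal_ofReal (by positivity)]
  filter_upwards [ae_ne_zero] with x hx
  exact (gE_ne_top ha hx).lt_top

lemma two_pi_gk (a : ℝ) (x : Plane) :
    2 * π * gk a x =
      (1 / 2) * ∫ t in Ioi (0 : ℝ), exp (-a * t) * (t⁻¹ * exp (-(‖x‖ ^ 2 / (4 * t)))) := by
  rw [gk_eq_integral, ← integral_const_mul, ← integral_const_mul]
  congr 1
  ext t
  simp only [heat, mul_inv]
  have := Real.pi_pos
  field_simp
  ring

lemma abs_exp_sub_le {u v : ℝ} (hu : 0 ≤ u) (hv : 0 ≤ v) :
    |exp (-u) - exp (-v)| ≤ |u - v| := by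
  wlog h : u ≤ v generalizing u v
  · rw [abs_sub_comm, abs_sub_comm u v]
    exact this hv hu (le_of_not_ge h)
  have h1 : exp (-v) = exp (-u) * exp (-(v - u)) := by
    rw [← Real.exp_add]; congr 1; ring
  have h2 : exp (-u) ≤ 1 := exp_le_one_iff.mpr (by linarith)
  have h3 : 1 - (v - u) ≤ exp (-(v - u)) := by linarith [Real.add_one_le_exp (-(v - u))]
  have h4 : exp (-(v - u)) ≤ 1 := exp_le_one_iff.mpr (by linarith)
  have h5 := exp_pos (-u)
  rw [abs_of_nonneg (by rw [h1]; nlinarith), abs_of_nonpos (by linarith), h1]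
  nlinarith

lemma abs_exp_sub_le_one {u v : ℝ} (hu : 0 ≤ u) (hv : 0 ≤ v) :
    |exp (-u) - exp (-v)| ≤ 1 := by
  have h2 : exp (-u) ≤ 1 := exp_le_one_iff.mpr (by linarith)
  have h3 : exp (-v) ≤ 1 := exp_le_one_iff.mpr (by linarith)
  have h5 := exp_pos (-u)
  have h6 := exp_pos (-v)
  rw [abs_le]; constructor <;> linarith

lemma abs_diff_le {ρ C t : ℝ} (hρ : 0 < ρ) (hC : 1 ≤ C) (hρC : ρ ≤ C) (ht : 0 < t) :
    |exp (-(ρ / (4 * t))) - exp (-(1 / (4 * t)))| ≤ 2 * C / (1 + t) := by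
  rw [le_div_iff₀ (by positivity)]
  rcases le_total t 1 with h | h
  · have := abs_exp_sub_le_one (u := ρ / (4 * t)) (v := 1 / (4 * t)) (by positivity)
      (by positivity)
    have h0 := abs_nonneg (exp (-(ρ / (4 * t))) - exp (-(1 / (4 * t))))
    nlinarith
  · have h1 := abs_exp_sub_le (u := ρ / (4 * t)) (v := 1 / (4 * t)) (by positivity)
      (by positivity)
    have h2 : |ρ / (4 * t) - 1 / (4 * t)| ≤ C / t := by
      rw [← sub_div, abs_div, abs_of_pos (by positivity : 0 < 4 * t),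
        div_le_div_iff₀ (by positivity) ht]
      have : |ρ - 1| ≤ C := by rw [abs_le]; constructor <;> linarith
      nlinarith
    have h3 := h1.trans h2
    calc _ ≤ C / t * (1 + t) := by gcongr
      _ ≤ C / t * (2 * t) := by gcongr; linarith
      _ = 2 * C := by field_simp

lemma integrableOn_frullani {ρ : ℝ} (hρ : 0 < ρ) :
    IntegrableOn (fun t : ℝ => t⁻¹ * (exp (-(ρ / (4 * t))) - exp (-(1 / (4 * t))))) (Ioi 0) := by
  set C : ℝ := max 1 ρ
  set K : ℝ := 2 * ((ρ / 4)⁻¹ + (1 / 4)⁻¹) + 2 * C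
  have hC : 1 ≤ C := le_max_left _ _
  refine Integrable.mono' ((integrable_inv_one_add_sq.const_mul K).integrableOn) ?_ ?_
  · apply Measurable.aestronglyMeasurable
    fun_prop
  · filter_upwards [ae_restrict_mem measurableSet_Ioi] with t ht
    have ht' : 0 < t := ht
    rw [Real.norm_eq_abs, ← div_eq_mul_inv, le_div_iff₀ (by positivity)]
    rcases le_total t 1 with h | h
    · have h1 := exp_neg_div_le (c := ρ / 4) (by positivity) ht'
      have h2 := exp_neg_div_le (c := 1 / 4) (by positivity) ht'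
      rw [div_div] at h1 h2
      have h3 : |t⁻¹ * (exp (-(ρ / (4 * t))) - exp (-(1 / (4 * t))))| ≤
          (ρ / 4)⁻¹ + (1 / 4)⁻¹ := by
        rw [mul_sub]
        refine (abs_sub _ _).trans ?_
        rw [abs_of_nonneg (by positivity), abs_of_nonneg (by positivity)]
        linarith
      have h4 : 1 + t ^ 2 ≤ 2 := by nlinarith
      calc _ ≤ ((ρ / 4)⁻¹ + (1 / 4)⁻¹) * 2 := by gcongr
        _ ≤ K := by simp only [K]; linarith
    · have h1 := abs_diff_le hρ hC (le_max_right _ _) ht'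
      rw [abs_mul, abs_of_pos (inv_pos.mpr ht')]
      have h2 : 1 + t ^ 2 ≤ t * (1 + t) := by nlinarith
      calc _ ≤ t⁻¹ * (2 * C / (1 + t)) * (t * (1 + t)) := by gcongr
        _ = 2 * C := by field_simp
        _ ≤ K := by
          have : 0 ≤ 2 * ((ρ / 4)⁻¹ + (1 / 4 : ℝ)⁻¹) := by positivity
          simp only [K]; linarith

lemma integral_frullani {ρ : ℝ} (hρ : 0 < ρ) :
    ∫ t in Ioi (0 : ℝ), t⁻¹ * (exp (-(ρ / (4 * t))) - exp (-(1 / (4 * t)))) = -log ρ := by
  have hfun : (fun t : ℝ => t⁻¹ • (exp (-(1 / (4 * (ρ⁻¹ * t)))) - exp (-(1 / (4 * (1 * t)))))) =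
      fun t : ℝ => t⁻¹ * (exp (-(ρ / (4 * t))) - exp (-(1 / (4 * t)))) := by
    ext t
    rw [smul_eq_mul, one_mul]
    congr 4
    by_cases ht : t = 0
    · simp [ht]
    · field_simp
  have h := Frullani.integral_Ioi_eq (f := fun t : ℝ => exp (-(1 / (4 * t)))) (a := ρ⁻¹) (b := 1)
    (L := 0) (R := 1) ?_ (inv_pos.mpr hρ) one_pos ?_ ?_ ?_
  · rw [hfun] at h
    rw [h]
    simp
  · apply ContinuousOn.locallyIntegrableOn _ measurableSet_Ioi
    apply ContinuousOn.rexp
    apply ContinuousOn.neg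
    apply ContinuousOn.div continuousOn_const (by fun_prop)
    intro x hx
    have : 0 < x := hx
    positivity
  · apply Real.tendsto_exp_atBot.comp
    apply tendsto_neg_atTop_atBot.comp
    have h1 : Tendsto (fun t : ℝ => (1 / 4 : ℝ) * t⁻¹) (𝓝[>] 0) atTop :=
      Tendsto.const_mul_atTop (by norm_num) tendsto_inv_nhdsGT_zero
    refine h1.congr fun t => ?_
    simp [mul_comm]
  · have h1 : Tendsto (fun t : ℝ => -(1 / (4 * t))) atTop (𝓝 0) := by
      have h2 : Tendsto (fun t : ℝ => 4 * t) atTop atTop :=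
        Tendsto.const_mul_atTop (by norm_num) tendsto_id
      simpa using (h2.inv_tendsto_atTop).neg
    have h3 := (Real.continuous_exp.tendsto 0).comp h1
    rw [Real.exp_zero] at h3
    exact h3
  · rw [hfun]
    exact integrableOn_frullani hρ

/-- The error functional. -/
noncomputable def etaErr (a : ℝ) : ℝ :=
  ∫ t in Ioi (0 : ℝ), (1 - exp (-a * t)) * (t⁻¹ * (1 + t)⁻¹)

lemma eta_bound {a t : ℝ} (ha : 0 < a) (ha1 : a ≤ 1) (ht : 0 < t) :
    ‖(1 - exp (-a * t)) * (t⁻¹ * (1 + t)⁻¹)‖ ≤ 2 * (1 + t ^ 2)⁻¹ := by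
  have h1 : exp (-a * t) ≤ 1 := exp_le_one_iff.mpr (by nlinarith)
  have h2 : 1 - exp (-a * t) ≤ a * t := by linarith [Real.add_one_le_exp (-a * t)]
  have h3 := exp_pos (-a * t)
  have h4 : 0 ≤ 1 - exp (-a * t) := by linarith
  rw [Real.norm_eq_abs, abs_of_nonneg (by positivity), ← div_eq_mul_inv 2,
    le_div_iff₀ (by positivity)]
  have h5 : (1 - exp (-a * t)) * (1 + t ^ 2) ≤ 2 * (t * (1 + t)) := by
    rcases le_total t 1 with h | h
    · have : 1 - exp (-a * t) ≤ t := by nlinarith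
      calc _ ≤ t * 2 := by gcongr; nlinarith
        _ ≤ _ := by nlinarith
    · calc _ ≤ 1 * (1 + t ^ 2) := by gcongr; linarith
        _ ≤ _ := by nlinarith
  calc _ = (1 - exp (-a * t)) * (1 + t ^ 2) * (t⁻¹ * (1 + t)⁻¹) := by ring
    _ ≤ 2 * (t * (1 + t)) * (t⁻¹ * (1 + t)⁻¹) := by gcongr
    _ = 2 := by field_simp

lemma integrableOn_eta {a : ℝ} (ha : 0 < a) (ha1 : a ≤ 1) :
    IntegrableOn (fun t : ℝ => (1 - exp (-a * t)) * (t⁻¹ * (1 + t)⁻¹)) (Ioi 0) := by
  refine Integrable.mono' ((integrable_inv_one_add_sq.const_mul 2).integrableOn) ?_ ?_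
  · apply Measurable.aestronglyMeasurable
    fun_prop
  · filter_upwards [ae_restrict_mem measurableSet_Ioi] with t ht
    exact eta_bound ha ha1 ht

lemma tendsto_eta : Tendsto etaErr (𝓝[>] 0) (𝓝 0) := by
  have h := tendsto_integral_filter_of_dominated_convergence (μ := volume.restrict (Ioi (0 : ℝ)))
    (l := 𝓝[>] (0 : ℝ)) (F := fun a t => (1 - exp (-a * t)) * (t⁻¹ * (1 + t)⁻¹))
    (f := fun _ => (0 : ℝ)) (fun t => 2 * (1 + t ^ 2)⁻¹) ?_ ?_
    ((integrable_inv_one_add_sq.const_mul 2).integrableOn) ?_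
  · rw [integral_zero] at h
    exact h
  · refine Eventually.of_forall fun a => Measurable.aestronglyMeasurable ?_
    fun_prop
  · filter_upwards [Ioc_mem_nhdsGT (zero_lt_one' ℝ)] with a ha
    filter_upwards [ae_restrict_mem measurableSet_Ioi] with t ht
    exact eta_bound ha.1 ha.2 ht
  · refine Eventually.of_forall fun t => ?_
    have h1 : Continuous fun a : ℝ => (1 - exp (-a * t)) * (t⁻¹ * (1 + t)⁻¹) := by fun_prop
    have h2 := (h1.tendsto 0).mono_left (nhdsWithin_le_nhds (s := Ioi 0))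
    simpa using h2

lemma F_approx {a ρ C : ℝ} (ha : 0 < a) (ha1 : a ≤ 1) (hρ : 0 < ρ) (hC : 1 ≤ C) (hρC : ρ ≤ C) :
    |(∫ t in Ioi (0 : ℝ), exp (-a * t) * (t⁻¹ * exp (-(ρ / (4 * t))))) -
      (∫ t in Ioi (0 : ℝ), exp (-a * t) * (t⁻¹ * exp (-(1 / (4 * t))))) + log ρ| ≤
      2 * C * etaErr a := by
  have i1 := integrableOn_F ha hρ
  have i2 := integrableOn_F ha one_pos
  have i3 := integrableOn_frullani hρ
  have e1 : log ρ = -∫ t in Ioi (0 : ℝ),
      t⁻¹ * (exp (-(ρ / (4 * t))) - exp (-(1 / (4 * t)))) := by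
    rw [integral_frullani hρ, neg_neg]
  have i4 : IntegrableOn (fun t : ℝ => exp (-a * t) * (t⁻¹ * exp (-(ρ / (4 * t)))) -
      exp (-a * t) * (t⁻¹ * exp (-(1 / (4 * t))))) (Ioi 0) := i1.sub i2
  rw [e1, ← sub_eq_add_neg, ← integral_sub i1 i2, ← integral_sub i4 i3, etaErr,
    ← integral_const_mul, ← Real.norm_eq_abs]
  refine norm_integral_le_of_norm_le ((integrableOn_eta ha ha1).const_mul _) ?_
  filter_upwards [ae_restrict_mem measurableSet_Ioi] with t ht
  have ht' : 0 < t := ht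
  have h1 : exp (-a * t) ≤ 1 := exp_le_one_iff.mpr (by nlinarith)
  have h4 : 0 ≤ 1 - exp (-a * t) := by linarith
  have h2 := abs_diff_le hρ hC hρC ht'
  have e2 : exp (-a * t) * (t⁻¹ * exp (-(ρ / (4 * t)))) -
      exp (-a * t) * (t⁻¹ * exp (-(1 / (4 * t)))) -
      t⁻¹ * (exp (-(ρ / (4 * t))) - exp (-(1 / (4 * t)))) =
      -((1 - exp (-a * t)) * t⁻¹ * (exp (-(ρ / (4 * t))) - exp (-(1 / (4 * t))))) := by ring
  rw [e2, norm_neg, Real.norm_eq_abs, abs_mul, abs_of_nonneg (by positivity)]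
  calc _ ≤ (1 - exp (-a * t)) * t⁻¹ * (2 * C / (1 + t)) := by gcongr
    _ = _ := by rw [div_eq_mul_inv]; ring

/-- Uniform approximation of the logarithmic kernel. -/
lemma exists_gk_approx (R : ℝ) {δ : ℝ} (hδ : 0 < δ) :
    ∃ a : ℝ, 0 < a ∧ ∃ c : ℝ, ∀ x : Plane, x ≠ 0 → ‖x‖ ≤ R →
      |2 * π * gk a x - c + log ‖x‖| ≤ δ := by
  set C : ℝ := max 1 (R ^ 2)
  have hC : 1 ≤ C := le_max_left _ _
  have h1 : ∀ᶠ a in 𝓝[>] (0 : ℝ), etaErr a < δ / C :=
    tendsto_eta.eventually (gt_mem_nhds (by positivity))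
  obtain ⟨a, ha, ha2⟩ := (h1.and (Ioc_mem_nhdsGT (zero_lt_one' ℝ))).exists
  refine ⟨a, ha2.1,
    (1 / 2) * ∫ t in Ioi (0 : ℝ), exp (-a * t) * (t⁻¹ * exp (-(1 / (4 * t)))), ?_⟩
  intro x hx hxR
  have hρ : 0 < ‖x‖ ^ 2 := by positivity
  have hρC : ‖x‖ ^ 2 ≤ C := le_trans (by gcongr) (le_max_right _ _)
  have h2 := F_approx ha2.1 ha2.2 hρ hC hρC
  rw [two_pi_gk]
  rw [Real.log_pow] at h2
  have h3 : C * etaErr a ≤ δ := by
    rw [lt_div_iff₀ (by positivity)] at ha
    linarith
  rw [abs_le] at h2 ⊢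
  push_cast at h2
  constructor <;> linarith [h2.1, h2.2]

end Pool.Agent.MP_86d647_an

end MrgPart1

-- marker of a merged file
example : 731051 + 85718 = 731051 + 85718 := rfl
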