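import Mathlib.Algebra.Order.Archimedean.Real.Hom
import Mathlib.Analysis.Convolution
import Mathlib.MeasureTheory.Function.AEEqOfIntegral
import Mathlib.Combinatorics.SimpleGraph.Basic
import Mathlib.MeasureTheory.Function.L2Space
import Mathlib.Analysis.InnerProductSpace.LaxMilgram
import Mathlib.Probability.Independence.Basic
import Mathlib.MeasureTheory.Function.SpecialFunctions.Inner
import Mathlib.Topology.Separation.CompletelyRegular
import Mathlib.MeasureTheory.Order.Group.Lattice
import Mathlib.Order.CompletePartialOrder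
import Pool.Agent.MP_86d647_an.LogApprox

-- ======== part 0: formerly Pool.Agent.MP_86d647_an.Conv
section MrgPart0

/-!
Convolution operators and their bilinear forms.
-/

set_option autoImplicit false

open MeasureTheory Filter Set Real
open scoped ENNReal Topology

namespace Pool.Agent.MP_86d647_an

/-- An even, integrable, measurable convolution kernel. -/
structure IsKer (k : Plane → ℝ) : Prop where
  meas : Measurable k
  int : Integrable k
  even : ∀ x, k (-x) = k x

/-- A measurable square integrable function. -/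
structure Sq (f : Plane → ℝ) : Prop where
  meas : Measurable f
  int : Integrable (fun x => f x ^ 2)

/-- A measurable, bounded, integrable function. -/
structure Nice (f : Plane → ℝ) : Prop where
  meas : Measurable f
  bdd : ∃ C, ∀ x, |f x| ≤ C
  int : Integrable f

/-- Lebesgue measure on pairs of points. -/
noncomputable abbrev vol2 : Measure (Plane × Plane) := (volume : Measure Plane).prod volume

/-- The bilinear form of a convolution kernel. -/
noncomputable def form (k f h : Plane → ℝ) : ℝ :=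
  ∫ p, k (p.1 - p.2) * f p.1 * h p.2 ∂vol2

/-- Convolution. -/
noncomputable def conv (k f : Plane → ℝ) (x : Plane) : ℝ := ∫ y, k (x - y) * f y

lemma isKer_gk {a : ℝ} (ha : 0 < a) : IsKer (gk a) :=
  ⟨measurable_gk a, integrable_gk ha, gk_neg a⟩

lemma IsKer.abs {k : Plane → ℝ} (hk : IsKer k) : IsKer fun x => |k x| :=
  ⟨hk.meas.abs, hk.int.abs, fun x => by rw [hk.even]⟩

lemma IsKer.symm {k : Plane → ℝ} (hk : IsKer k) (x y : Plane) : k (x - y) = k (y - x) := by
  rw [← hk.even, neg_sub]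

lemma Nice.sq {f : Plane → ℝ} (hf : Nice f) : Sq f := by
  obtain ⟨C, hC⟩ := hf.bdd
  refine ⟨hf.meas, ?_⟩
  have := hf.int.mul_bdd (c := C) hf.meas.aestronglyMeasurable (Eventually.of_forall hC)
  simpa [pow_two] using this

lemma Nice.add {f g : Plane → ℝ} (hf : Nice f) (hg : Nice g) : Nice fun x => f x + g x := by
  obtain ⟨C, hC⟩ := hf.bdd
  obtain ⟨D, hD⟩ := hg.bdd
  exact ⟨hf.meas.add hg.meas, ⟨C + D, fun x => (abs_add_le _ _).trans (add_le_add (hC x) (hD x))⟩,
    hf.int.add hg.int⟩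

lemma Nice.const_mul {f : Plane → ℝ} (hf : Nice f) (c : ℝ) : Nice fun x => c * f x := by
  obtain ⟨C, hC⟩ := hf.bdd
  refine ⟨hf.meas.const_mul c, ⟨|c| * C, fun x => ?_⟩, hf.int.const_mul c⟩
  rw [abs_mul]
  exact mul_le_mul_of_nonneg_left (hC x) (abs_nonneg c)

lemma Nice.sub {f g : Plane → ℝ} (hf : Nice f) (hg : Nice g) : Nice fun x => f x - g x := by
  have := hf.add (hg.const_mul (-1))
  simpa [sub_eq_add_neg] using this

lemma Nice.integrable_mul {f g : Plane → ℝ} (hf : Nice f) (hg : Nice g) :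
    Integrable fun x => f x * g x := by
  obtain ⟨D, hD⟩ := hg.bdd
  exact hf.int.mul_bdd (c := D) hg.meas.aestronglyMeasurable (Eventually.of_forall hD)

lemma integrable_ker_snd {k F : Plane → ℝ} (hk : IsKer k) (hF : Integrable F) :
    Integrable (fun p : Plane × Plane => k (p.1 - p.2) * F p.2) vol2 := by
  have := hF.convolution_integrand (ContinuousLinearMap.mul ℝ ℝ) hk.int
  simpa [mul_comm] using this

lemma integrable_ker_fst {k F : Plane → ℝ} (hk : IsKer k) (hF : Integrable F) :
    Integrable (fun p : Plane × Plane => k (p.1 - p.2) * F p.1) vol2 := by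
  have := (integrable_ker_snd hk hF).swap
  refine this.congr (Eventually.of_forall fun p => ?_)
  simp [hk.symm p.1 p.2]

lemma integral_ker_snd {k F : Plane → ℝ} (hk : IsKer k) (hF : Integrable F) :
    ∫ p, k (p.1 - p.2) * F p.2 ∂vol2 = (∫ x, k x) * ∫ x, F x := by
  rw [integral_prod_symm _ (integrable_ker_snd hk hF), ← integral_const_mul]
  congr 1
  ext y
  simp only
  rw [integral_mul_const, integral_sub_right_eq_self k y]

lemma integral_ker_fst {k F : Plane → ℝ} (hk : IsKer k) (hF : Integrable F) :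
    ∫ p, k (p.1 - p.2) * F p.1 ∂vol2 = (∫ x, k x) * ∫ x, F x := by
  rw [← integral_ker_snd hk hF, ← integral_prod_swap]
  congr 1
  ext p
  simp [hk.symm p.1 p.2]

lemma form_bound_pt (a b c : ℝ) : ‖a * b * c‖ ≤ (1 / 2) * (|a| * b ^ 2 + |a| * c ^ 2) := by
  rw [Real.norm_eq_abs, abs_mul, abs_mul, ← sq_abs b, ← sq_abs c]
  have := mul_nonneg (abs_nonneg a) (sq_nonneg (|b| - |c|))
  nlinarith

lemma integrable_form {k f h : Plane → ℝ} (hk : IsKer k) (hf : Sq f) (hh : Sq h) :
    Integrable (fun p : Plane × Plane => k (p.1 - p.2) * f p.1 * h p.2) vol2 := by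
  refine Integrable.mono' (((integrable_ker_fst hk.abs hf.int).add
    (integrable_ker_snd hk.abs hh.int)).const_mul (1 / 2)) ?_ ?_
  · have := hk.meas
    have := hf.meas
    have := hh.meas
    apply Measurable.aestronglyMeasurable
    fun_prop
  · exact Eventually.of_forall fun p => form_bound_pt _ _ _

lemma abs_form_le {k f h : Plane → ℝ} (hk : IsKer k) (hf : Sq f) (hh : Sq h) :
    |form k f h| ≤ (1 / 2) * (∫ x, |k x|) * ((∫ x, f x ^ 2) + ∫ x, h x ^ 2) := by
  have i1 := integrable_ker_fst hk.abs hf.int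
  have i2 := integrable_ker_snd hk.abs hh.int
  have h1 := norm_integral_le_of_norm_le ((i1.add i2).const_mul (1 / 2))
    (Eventually.of_forall fun p : Plane × Plane => form_bound_pt (k (p.1 - p.2)) (f p.1) (h p.2))
  rw [integral_const_mul] at h1
  simp only [Pi.add_apply] at h1
  rw [integral_add i1 i2, integral_ker_fst hk.abs hf.int, integral_ker_snd hk.abs hh.int] at h1
  rw [form, ← Real.norm_eq_abs]
  linarith

lemma form_symm {k : Plane → ℝ} (hk : IsKer k) (f h : Plane → ℝ) : form k f h = form k h f := by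
  unfold form
  rw [← integral_prod_swap]
  congr 1
  ext p
  simp only [Prod.fst_swap, Prod.snd_swap, hk.symm p.1 p.2]
  ring

lemma form_eq_conv {k f h : Plane → ℝ} (hk : IsKer k) (hf : Sq f) (hh : Sq h) :
    form k f h = ∫ x, f x * conv k h x := by
  unfold form conv
  rw [integral_prod _ (integrable_form hk hf hh)]
  congr 1
  ext x
  rw [← integral_const_mul]
  congr 1
  ext y
  ring

lemma integrable_conv_inner {k f : Plane → ℝ} (hk : IsKer k) (hf : Nice f) (x : Plane) :
    Integrable fun y => k (x - y) * f y := by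
  obtain ⟨C, hC⟩ := hf.bdd
  exact (hk.int.comp_sub_left x).mul_bdd (c := C) hf.meas.aestronglyMeasurable
    (Eventually.of_forall hC)

lemma Nice.conv {k f : Plane → ℝ} (hk : IsKer k) (hf : Nice f) : Nice (conv k f) := by
  obtain ⟨C, hC⟩ := hf.bdd
  refine ⟨?_, ⟨(∫ x, |k x|) * C, fun x => ?_⟩, (integrable_ker_snd hk hf.int).integral_prod_left⟩
  · have h1 := hk.meas
    have h2 := hf.meas
    have h3 : Measurable fun p : Plane × Plane => k (p.1 - p.2) * f p.2 := by fun_prop
    exact h3.stronglyMeasurable.integral_prod_right'.measurable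
  · rw [← integral_sub_left_eq_self (fun y => |k y|) volume x, ← integral_mul_const,
      ← Real.norm_eq_abs]
    refine norm_integral_le_of_norm_le ((hk.int.abs.comp_sub_left x).mul_const C)
      (Eventually.of_forall fun y => ?_)
    rw [Real.norm_eq_abs, abs_mul]
    exact mul_le_mul_of_nonneg_left (hC y) (abs_nonneg _)

lemma conv_add {k f g : Plane → ℝ} (hk : IsKer k) (hf : Nice f) (hg : Nice g) (c : ℝ)
    (x : Plane) : conv k (fun y => f y + c * g y) x = conv k f x + c * conv k g x := by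
  unfold conv
  rw [← integral_const_mul, ← integral_add (integrable_conv_inner hk hf x)
    ((integrable_conv_inner hk hg x).const_mul c)]
  congr 1
  ext y
  ring

lemma conv_conv {k l u : Plane → ℝ} (hk : IsKer k) (hl : IsKer l) (hu : Nice u) (x : Plane) :
    conv k (conv l u) x = ∫ z, (∫ y, k (x - z - y) * l y) * u z := by
  obtain ⟨C, hC⟩ := hu.bdd
  have hi : Integrable (fun p : Plane × Plane => l (p.1 - p.2) * k (x - p.1) * u p.2) vol2 := by
    refine (integrable_ker_fst hl (hk.int.comp_sub_left x)).mul_bdd (c := C) ?_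
      (Eventually.of_forall fun p => hC p.2)
    exact (hu.meas.comp measurable_snd).aestronglyMeasurable
  have h1 : conv k (conv l u) x = ∫ y, ∫ z, l (y - z) * k (x - y) * u z := by
    unfold conv
    congr 1
    ext y
    rw [← integral_const_mul]
    congr 1
    ext z
    ring
  rw [h1, integral_integral_swap hi]
  congr 1
  ext z
  rw [integral_mul_const, ← integral_add_right_eq_self _ z]
  congr 2
  ext y
  rw [add_sub_cancel_right, mul_comm]
  congr 2
  abel

lemma gk_resolvent {a α : ℝ} (ha : 0 < a) (hα : 0 < α) {w : Plane} (hw : w ≠ 0) :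
    α * ∫ y, gk (a + α) (w - y) * gk a y = gk a w - gk (a + α) w := by
  have h := gE_resolvent (a := a) hα w
  have h1 := gE_ne_top ha hw
  have h2 := gE_ne_top (a := a + α) (by positivity) hw
  have h3 : ENNReal.ofReal α * (∫⁻ y : Plane, gE (a + α) (w - y) * gE a y) ≠ ⊤ := by
    intro h4
    rw [h4, top_add] at h
    exact h1 h.symm
  have h4 : ∫⁻ y : Plane, gE (a + α) (w - y) * gE a y ≠ ⊤ := by
    intro h5
    rw [h5, ENNReal.mul_top (by simpa using hα)] at h3
    exact h3 rfl
  have hm : Measurable fun y : Plane => gE (a + α) (w - y) * gE a y := by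
    have := measurable_gE (a + α)
    have := measurable_gE a
    fun_prop
  have h5 : ∫ y, gk (a + α) (w - y) * gk a y =
      (∫⁻ y : Plane, gE (a + α) (w - y) * gE a y).toReal := by
    rw [← integral_toReal hm.aemeasurable (ae_lt_top hm h4)]
    simp [gk]
  have h6 := congrArg ENNReal.toReal h
  rw [ENNReal.toReal_add h3 h2, ENNReal.toReal_mul, ENNReal.toReal_ofReal hα.le, ← h5] at h6
  simp only [gk] at h6 ⊢
  linarith

lemma ae_sub_ne_zero (x : Plane) : ∀ᵐ z : Plane, x - z ≠ 0 := by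
  have : ∀ᵐ z : Plane, z ≠ x := by simp [ae_iff]
  filter_upwards [this] with z hz
  exact sub_ne_zero.mpr hz.symm

lemma conv_resolvent {a α : ℝ} (ha : 0 < a) (hα : 0 < α) {u : Plane → ℝ} (hu : Nice u)
    (x : Plane) :
    α * conv (gk (a + α)) (conv (gk a) u) x = conv (gk a) u x - conv (gk (a + α)) u x := by
  have hb : 0 < a + α := by positivity
  rw [conv_conv (isKer_gk hb) (isKer_gk ha) hu, ← integral_const_mul]
  unfold conv
  rw [← integral_sub (integrable_conv_inner (isKer_gk ha) hu x)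
    (integrable_conv_inner (isKer_gk hb) hu x)]
  refine integral_congr_ae ?_
  filter_upwards [ae_sub_ne_zero x] with z hz
  rw [← mul_assoc, gk_resolvent ha hα hz]
  ring

lemma conv_resolvent' {a α : ℝ} (ha : 0 < a) (hα : 0 < α) {u : Plane → ℝ} (hu : Nice u)
    (x : Plane) :
    α * conv (gk a) (conv (gk (a + α)) u) x = conv (gk a) u x - conv (gk (a + α)) u x := by
  have hb : 0 < a + α := by positivity
  rw [← conv_resolvent ha hα hu, conv_conv (isKer_gk hb) (isKer_gk ha) hu,
    conv_conv (isKer_gk ha) (isKer_gk hb) hu]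
  congr 2
  ext z
  congr 1
  rw [← integral_sub_left_eq_self _ volume (x - z)]
  congr 1
  ext y
  rw [sub_sub_cancel, mul_comm]

end Pool.Agent.MP_86d647_an

end MrgPart0

-- ======== part 1: formerly Pool.Agent.MP_86d647_an.Polar
section MrgPart1

/-!
Polarization of functions increases the bilinear form of a radially decreasing kernel.
-/

set_option autoImplicit false

open MeasureTheory Filter Set Real
open scoped ENNReal Topology

namespace Pool.Agent.MP_86d647_an

variable {n : Plane} {c : ℝ}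

lemma inner_reflect (hn : ‖n‖ = 1) (x : Plane) :
    c - inner ℝ n (reflect n c x) = -(c - inner ℝ n x) := by
  simp only [reflect, inner_add_right, real_inner_smul_right, real_inner_self_eq_norm_sq, hn]
  ring

lemma reflect_reflect (hn : ‖n‖ = 1) (x : Plane) : reflect n c (reflect n c x) = x := by
  have h := inner_reflect (c := c) hn x
  rw [reflect, h, reflect, add_assoc, ← add_smul]
  have : 2 * (c - inner ℝ n x) + 2 * -(c - inner ℝ n x) = 0 := by ring
  rw [this, zero_smul, add_zero]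

lemma norm_sub_reflect_sq (hn : ‖n‖ = 1) (x y : Plane) :
    ‖x - reflect n c y‖ ^ 2 = ‖x - y‖ ^ 2 + 4 * ((c - inner ℝ n x) * (c - inner ℝ n y)) := by
  have h : x - reflect n c y = (x - y) - (2 * (c - inner ℝ n y)) • n := by
    rw [reflect]; abel
  rw [h, norm_sub_sq_real, real_inner_smul_right, norm_smul, hn, inner_sub_left,
    real_inner_comm n x, real_inner_comm n y, mul_one, Real.norm_eq_abs, sq_abs]
  ring

lemma norm_reflect_sub (hn : ‖n‖ = 1) (x y : Plane) :
    ‖reflect n c x - y‖ = ‖x - reflect n c y‖ := by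
  rw [← sq_eq_sq₀ (norm_nonneg _) (norm_nonneg _), norm_sub_rev, norm_sub_reflect_sq hn,
    norm_sub_reflect_sq hn, norm_sub_rev y x]
  ring

lemma norm_reflect_sub_reflect (hn : ‖n‖ = 1) (x y : Plane) :
    ‖reflect n c x - reflect n c y‖ = ‖x - y‖ := by
  rw [norm_reflect_sub hn, reflect_reflect hn]

lemma measurable_reflect : Measurable (reflect n c) := by
  unfold reflect
  fun_prop

lemma measurePreserving_reflect (hn : ‖n‖ = 1) : MeasurePreserving (reflect n c) := by
  have h1 := ((ℝ ∙ n)ᗮ.reflection).measurePreserving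
  have h2 := measurePreserving_add_right (volume : Measure Plane) ((2 * c) • n)
  have h3 := h2.comp h1
  have h4 : reflect n c = (fun x => x + (2 * c) • n) ∘ ((ℝ ∙ n)ᗮ.reflection) := by
    funext x
    simp only [Function.comp, Submodule.reflection_orthogonal_apply,
      Submodule.reflection_singleton_apply, hn, reflect]
    simp only [RCLike.ofReal_real_eq_id, id_eq, one_pow, div_one, neg_sub]
    rw [two_smul, mul_sub, sub_smul, mul_smul 2 (inner ℝ n x), two_smul]
    abel
  rw [h4]
  exact h3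

/-- The reflection as a measurable equivalence. -/
noncomputable def reflEquiv (c : ℝ) (hn : ‖n‖ = 1) : Plane ≃ᵐ Plane :=
  MeasurableEquiv.ofInvolutive (reflect n c) (reflect_reflect hn) measurable_reflect

lemma integral_comp_reflect (hn : ‖n‖ = 1) (F : Plane → ℝ) :
    ∫ x, F (reflect n c x) = ∫ x, F x :=
  (measurePreserving_reflect hn).integral_comp (reflEquiv c hn).measurableEmbedding F

lemma integrable_comp_reflect (hn : ‖n‖ = 1) {F : Plane → ℝ} (hF : Integrable F) :
    Integrable fun x => F (reflect n c x) :=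
  (measurePreserving_reflect hn).integrable_comp_of_integrable hF

lemma integral_four (hn : ‖n‖ = 1) {F : Plane × Plane → ℝ} (hF : Integrable F vol2) :
    Integrable (fun p : Plane × Plane => F (p.1, p.2) + F (reflect n c p.1, p.2) +
      F (p.1, reflect n c p.2) + F (reflect n c p.1, reflect n c p.2)) vol2 ∧
    ∫ p, (F (p.1, p.2) + F (reflect n c p.1, p.2) +
      F (p.1, reflect n c p.2) + F (reflect n c p.1, reflect n c p.2)) ∂vol2 =
      4 * ∫ p, F p ∂vol2 := by
  have m := measurePreserving_reflect (c := c) hn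
  have i := MeasurePreserving.id (volume : Measure Plane)
  have e := (reflEquiv c hn).measurableEmbedding
  have ie : MeasurableEmbedding (id : Plane → Plane) := MeasurableEmbedding.id
  have i1 : Integrable (fun p : Plane × Plane => F (p.1, p.2)) vol2 := hF
  have i2 : Integrable (fun p : Plane × Plane => F (reflect n c p.1, p.2)) vol2 :=
    (m.prod i).integrable_comp_of_integrable hF
  have i3 : Integrable (fun p : Plane × Plane => F (p.1, reflect n c p.2)) vol2 :=
    (i.prod m).integrable_comp_of_integrable hF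
  have i4 : Integrable (fun p : Plane × Plane => F (reflect n c p.1, reflect n c p.2)) vol2 :=
    (m.prod m).integrable_comp_of_integrable hF
  have e2 : ∫ p, F (reflect n c p.1, p.2) ∂vol2 = ∫ p, F p ∂vol2 :=
    (m.prod i).integral_comp (e.prodMap ie) F
  have e3 : ∫ p, F (p.1, reflect n c p.2) ∂vol2 = ∫ p, F p ∂vol2 :=
    (i.prod m).integral_comp (ie.prodMap e) F
  have e4 : ∫ p, F (reflect n c p.1, reflect n c p.2) ∂vol2 = ∫ p, F p ∂vol2 :=
    (m.prod m).integral_comp (e.prodMap e) F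
  have i12 : Integrable (fun p : Plane × Plane => F (p.1, p.2) + F (reflect n c p.1, p.2)) vol2 :=
    i1.add i2
  have i123 : Integrable (fun p : Plane × Plane => F (p.1, p.2) + F (reflect n c p.1, p.2) +
      F (p.1, reflect n c p.2)) vol2 := i12.add i3
  refine ⟨i123.add i4, ?_⟩
  rw [integral_add i123 i4, integral_add i12 i3, integral_add i1 i2, e2, e3, e4]
  ring

open Classical in
/-- Polarization of a function. -/
noncomputable def pol (n : Plane) (c : ℝ) (φ : Plane → ℝ) (x : Plane) : ℝ :=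
  if x ∈ halfPlane n c then max (φ x) (φ (reflect n c x)) else min (φ x) (φ (reflect n c x))

lemma measurableSet_halfPlane : MeasurableSet (halfPlane n c) := by
  unfold halfPlane
  exact measurableSet_lt (by fun_prop) measurable_const

lemma abs_pol_le (φ : Plane → ℝ) (x : Plane) :
    |pol n c φ x| ≤ |φ x| + |φ (reflect n c x)| := by
  have h1 := abs_nonneg (φ x)
  have h2 := abs_nonneg (φ (reflect n c x))
  unfold pol
  split_ifs
  · rcases max_choice (φ x) (φ (reflect n c x)) with h | h <;> rw [h] <;> linarith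
  · rcases min_choice (φ x) (φ (reflect n c x)) with h | h <;> rw [h] <;> linarith

lemma Nice.pol {φ : Plane → ℝ} (hφ : Nice φ) (hn : ‖n‖ = 1) : Nice (pol n c φ) := by
  obtain ⟨C, hC⟩ := hφ.bdd
  have hm : Measurable (MP_86d647_an.pol n c φ) := by
    have h1 := hφ.meas
    have h2 := hφ.meas.comp (measurable_reflect (n := n) (c := c))
    exact Measurable.ite measurableSet_halfPlane (h1.max h2) (h1.min h2)
  refine ⟨hm, ⟨C + C, fun x => (abs_pol_le φ x).trans (add_le_add (hC _) (hC _))⟩, ?_⟩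
  exact Integrable.mono' (hφ.int.abs.add (integrable_comp_reflect hn hφ.int.abs))
    hm.aestronglyMeasurable (Eventually.of_forall fun x => abs_pol_le φ x)

/-- The two values of the polarization on a pair of mirror points. -/
lemma pol_pair (hn : ‖n‖ = 1) (φ : Plane → ℝ) (x : Plane) :
    pol n c φ x + pol n c φ (reflect n c x) = φ x + φ (reflect n c x) ∧
    (0 ≤ c - inner ℝ n x →
      pol n c φ x - pol n c φ (reflect n c x) = |φ x - φ (reflect n c x)|) ∧
    (c - inner ℝ n x ≤ 0 →
      pol n c φ x - pol n c φ (reflect n c x) = -|φ x - φ (reflect n c x)|) := by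
  have h := inner_reflect (c := c) hn x
  rcases lt_trichotomy (c - inner ℝ n x) 0 with h0 | h0 | h0
  · have m1 : x ∉ halfPlane n c := by simp only [halfPlane, mem_ofPred_eq]; linarith
    have m2 : reflect n c x ∈ halfPlane n c := by simp only [halfPlane, mem_ofPred_eq]; linarith
    simp only [pol, if_pos m2, if_neg m1, reflect_reflect hn]
    refine ⟨?_, fun h1 => by linarith, fun _ => ?_⟩
    · rw [max_comm, min_add_max]
    · rw [max_comm, ← max_sub_min_eq_abs']; ring
  · have e : reflect n c x = x := by simp [reflect, h0]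
    simp [e, pol]
  · have m1 : x ∈ halfPlane n c := by simp only [halfPlane, mem_ofPred_eq]; linarith
    have m2 : reflect n c x ∉ halfPlane n c := by simp only [halfPlane, mem_ofPred_eq]; linarith
    simp only [pol, if_pos m1, if_neg m2, reflect_reflect hn]
    refine ⟨?_, fun _ => ?_, fun h1 => by linarith⟩
    · rw [min_comm, max_add_min]
    · rw [min_comm, ← max_sub_min_eq_abs']

lemma pol_sq (hn : ‖n‖ = 1) (φ : Plane → ℝ) (x : Plane) :
    pol n c φ x ^ 2 + pol n c φ (reflect n c x) ^ 2 = φ x ^ 2 + φ (reflect n c x) ^ 2 := by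
  obtain ⟨h1, h2, h3⟩ := pol_pair (c := c) hn φ x
  have h4 : (pol n c φ x - pol n c φ (reflect n c x)) ^ 2 = (φ x - φ (reflect n c x)) ^ 2 := by
    rcases le_total 0 (c - inner ℝ n x) with h | h
    · rw [h2 h, sq_abs]
    · rw [h3 h, neg_sq, sq_abs]
  have h5 : (pol n c φ x + pol n c φ (reflect n c x)) ^ 2 = (φ x + φ (reflect n c x)) ^ 2 := by
    rw [h1]
  nlinarith

lemma integral_pol_sq (hn : ‖n‖ = 1) {φ : Plane → ℝ} (hφ : Nice φ) :
    ∫ x, pol n c φ x ^ 2 = ∫ x, φ x ^ 2 := by
  have i1 := (hφ.pol (c := c) hn).sq.int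
  have i2 := hφ.sq.int
  have e1 := integral_add i1 (integrable_comp_reflect (c := c) hn i1)
  have e2 := integral_add i2 (integrable_comp_reflect (c := c) hn i2)
  rw [integral_comp_reflect hn (fun x => pol n c φ x ^ 2)] at e1
  rw [integral_comp_reflect hn (fun x => φ x ^ 2)] at e2
  simp_rw [pol_sq hn] at e1
  linarith

lemma four_ineq {k1 k2 a a' b b' A A' B B' : ℝ} (hA : A + A' = a + a') (hB : B + B' = b + b')
    (h : (k1 - k2) * ((a - a') * (b - b')) ≤ (k1 - k2) * ((A - A') * (B - B'))) :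
    k1 * a * b + k2 * a' * b + k2 * a * b' + k1 * a' * b' ≤
      k1 * A * B + k2 * A' * B + k2 * A * B' + k1 * A' * B' := by
  have e1 : k1 * a * b + k2 * a' * b + k2 * a * b' + k1 * a' * b' =
      (1 / 2) * ((k1 + k2) * ((a + a') * (b + b')) + (k1 - k2) * ((a - a') * (b - b'))) := by ring
  have e2 : k1 * A * B + k2 * A' * B + k2 * A * B' + k1 * A' * B' =
      (1 / 2) * ((k1 + k2) * ((A + A') * (B + B')) + (k1 - k2) * ((A - A') * (B - B'))) := by ring
  rw [e1, e2, hA, hB]
  linarith

lemma form_le_form_pol (hn : ‖n‖ = 1) {k φ : Plane → ℝ} (hk : IsKer k) (hφ : Nice φ)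
    (hrad : ∀ x y, ‖x‖ = ‖y‖ → k x = k y)
    (hanti : ∀ x y, x ≠ 0 → ‖x‖ ≤ ‖y‖ → k y ≤ k x) :
    form k φ φ ≤ form k (pol n c φ) (pol n c φ) := by
  obtain ⟨i1, e1⟩ := integral_four (c := c) hn (integrable_form hk hφ.sq hφ.sq)
  obtain ⟨i2, e2⟩ := integral_four (c := c) hn
    (integrable_form hk (hφ.pol (c := c) hn).sq (hφ.pol (c := c) hn).sq)
  have hae : ∀ᵐ p ∂vol2, p.1 - p.2 ≠ 0 ∧ reflect n c p.1 - p.2 ≠ 0 := by
    rw [Measure.ae_prod_iff_ae_ae]
    · exact Eventually.of_forall fun x => (ae_sub_ne_zero x).and (ae_sub_ne_zero (reflect n c x))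
    · have := measurable_reflect (n := n) (c := c)
      refine MeasurableSet.inter (s₁ := {p : Plane × Plane | p.1 - p.2 ≠ 0})
        (s₂ := {p : Plane × Plane | reflect n c p.1 - p.2 ≠ 0}) ?_ ?_
      · exact (measurableSet_eq_fun (by fun_prop) measurable_const).compl
      · exact (measurableSet_eq_fun (by fun_prop) measurable_const).compl
  have h := integral_mono_ae i1 i2 ?_
  · rw [e1, e2] at h
    unfold form
    linarith
  filter_upwards [hae] with p hp
  obtain ⟨x, y⟩ := p
  obtain ⟨hp1, hp2⟩ := hp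
  simp only at hp1 hp2 ⊢
  have k1 : k (reflect n c x - reflect n c y) = k (x - y) :=
    hrad _ _ (norm_reflect_sub_reflect hn x y)
  have k2 : k (x - reflect n c y) = k (reflect n c x - y) :=
    hrad _ _ (norm_reflect_sub hn x y).symm
  rw [k1, k2]
  obtain ⟨x1, x2, x3⟩ := pol_pair (c := c) hn φ x
  obtain ⟨y1, y2, y3⟩ := pol_pair (c := c) hn φ y
  have hsq := norm_sub_reflect_sq (c := c) hn x y
  rw [← norm_reflect_sub hn] at hsq
  have hge : 0 ≤ (c - inner ℝ n x) * (c - inner ℝ n y) →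
      0 ≤ k (x - y) - k (reflect n c x - y) := by
    intro h0
    refine sub_nonneg.mpr (hanti _ _ hp1 ?_)
    rw [← sq_le_sq₀ (norm_nonneg _) (norm_nonneg _)]
    linarith
  have hle : (c - inner ℝ n x) * (c - inner ℝ n y) ≤ 0 →
      k (x - y) - k (reflect n c x - y) ≤ 0 := by
    intro h0
    refine sub_nonpos.mpr (hanti _ _ hp2 ?_)
    rw [← sq_le_sq₀ (norm_nonneg _) (norm_nonneg _)]
    linarith
  have b1 : (φ x - φ (reflect n c x)) * (φ y - φ (reflect n c y)) ≤
      |φ x - φ (reflect n c x)| * |φ y - φ (reflect n c y)| := by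
    rw [← abs_mul]; exact le_abs_self _
  have b2 : -(|φ x - φ (reflect n c x)| * |φ y - φ (reflect n c y)|) ≤
      (φ x - φ (reflect n c x)) * (φ y - φ (reflect n c y)) := by
    rw [← abs_mul]; exact neg_abs_le _
  apply four_ineq x1 y1
  rcases le_total 0 (c - inner ℝ n x) with hx | hx <;>
    rcases le_total 0 (c - inner ℝ n y) with hy | hy
  · rw [x2 hx, y2 hy]
    exact mul_le_mul_of_nonneg_left b1 (hge (mul_nonneg hx hy))
  · rw [x2 hx, y3 hy, mul_neg]
    exact mul_le_mul_of_nonpos_left b2 (hle (mul_nonpos_of_nonneg_of_nonpos hx hy))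
  · rw [x3 hx, y2 hy, neg_mul]
    exact mul_le_mul_of_nonpos_left b2 (hle (mul_nonpos_of_nonpos_of_nonneg hx hy))
  · rw [x3 hx, y3 hy, neg_mul_neg]
    exact mul_le_mul_of_nonneg_left b1 (hge (mul_nonneg_of_nonpos_of_nonpos hx hy))

end Pool.Agent.MP_86d647_an

end MrgPart1

-- ======== part 2: formerly Pool.Agent.MP_86d647_an.Cap
section MrgPart2

/-!
The equilibrium potential of a set for the resolvent kernel, and the capacity inequality under
polarization.
-/

set_option autoImplicit false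

open MeasureTheory Filter Set Real
open scoped ENNReal Topology

namespace Pool.Agent.MP_86d647_an

open Classical in
/-- Monotone iteration for the equilibrium potential. -/
noncomputable def iter (Ω : Set Plane) (K : Plane → ℝ≥0∞) : ℕ → Plane → ℝ≥0∞
  | 0 => fun _ => 0
  | m + 1 => fun x => if x ∈ Ω then 1 else ∫⁻ y, K (x - y) * iter Ω K m y

section iter

variable {Ω : Set Plane} {K : Plane → ℝ≥0∞}

lemma measurable_lconv (hK : Measurable K) {F : Plane → ℝ≥0∞} (hF : Measurable F) :
    Measurable fun x => ∫⁻ y, K (x - y) * F y := by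
  refine Measurable.lintegral_prod_right (f := fun x y => K (x - y) * F y) ?_
  unfold Function.uncurry
  fun_prop

lemma lconv_le (hK1 : ∫⁻ x, K x ≤ 1) {F : Plane → ℝ≥0∞} (hF : ∀ x, F x ≤ 1) (x : Plane) :
    ∫⁻ y, K (x - y) * F y ≤ 1 := by
  calc ∫⁻ y, K (x - y) * F y ≤ ∫⁻ y, K (x - y) := by
        refine lintegral_mono fun y => ?_
        simpa using mul_le_mul_right (hF y) (K (x - y))
    _ = ∫⁻ y, K y := lintegral_sub_left_eq_self K x
    _ ≤ 1 := hK1

lemma lintegral_lconv (hK : Measurable K) {F : Plane → ℝ≥0∞} (hF : Measurable F) :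
    ∫⁻ x, ∫⁻ y, K (x - y) * F y = (∫⁻ x, K x) * ∫⁻ y, F y := by
  rw [lintegral_lintegral_swap (by unfold Function.uncurry; fun_prop), ← lintegral_const_mul _ hF]
  congr 1
  ext y
  rw [lintegral_mul_const _ (by fun_prop), lintegral_sub_right_eq_self K y]

lemma measurable_iter (hΩ : MeasurableSet Ω) (hK : Measurable K) (m : ℕ) :
    Measurable (iter Ω K m) := by
  induction m with
  | zero => exact measurable_const
  | succ m ih => exact Measurable.ite hΩ measurable_const (measurable_lconv hK ih)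

lemma iter_le_one (hK1 : ∫⁻ x, K x ≤ 1) (m : ℕ) (x : Plane) : iter Ω K m x ≤ 1 := by
  induction m generalizing x with
  | zero => simp [iter]
  | succ m ih =>
    simp only [iter]
    split_ifs
    · exact le_rfl
    · exact lconv_le hK1 ih x

lemma iter_mono : Monotone (iter Ω K) := by
  refine monotone_nat_of_le_succ fun m => ?_
  induction m with
  | zero => intro x; simp [iter]
  | succ m ih =>
    intro x
    rw [iter, iter]
    simp only
    split_ifs
    · exact le_rfl
    · exact lintegral_mono fun y => mul_le_mul_right (ih y) _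

lemma lintegral_iter_le (hΩ : MeasurableSet Ω) (hK : Measurable K) {B : ℝ≥0∞}
    (hB : volume Ω + (∫⁻ x, K x) * B ≤ B) (m : ℕ) : ∫⁻ x, iter Ω K m x ≤ B := by
  induction m with
  | zero => simp [iter]
  | succ m ih =>
    calc ∫⁻ x, iter Ω K (m + 1) x
        ≤ ∫⁻ x, (Ω.indicator 1 x + ∫⁻ y, K (x - y) * iter Ω K m y) := by
          refine lintegral_mono fun x => ?_
          simp only [iter]
          split_ifs with h
          · simp [h]
          · simp
      _ = volume Ω + (∫⁻ x, K x) * ∫⁻ y, iter Ω K m y := by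
          rw [lintegral_add_left (measurable_one.indicator hΩ), lintegral_indicator_one hΩ,
            lintegral_lconv hK (measurable_iter hΩ hK m)]
      _ ≤ volume Ω + (∫⁻ x, K x) * B := by gcongr
      _ ≤ B := hB

lemma iSup_iter_notMem (hΩ : MeasurableSet Ω) (hK : Measurable K) {x : Plane} (hx : x ∉ Ω) :
    ⨆ m, iter Ω K m x = ∫⁻ y, K (x - y) * ⨆ m, iter Ω K m y := by
  simp_rw [ENNReal.mul_iSup]
  rw [lintegral_iSup]
  · rw [← (iter_mono.apply₂ x).iSup_nat_add 1]
    simp [iter, hx]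
  · intro m
    have := measurable_iter hΩ hK m
    fun_prop
  · intro m m' h y
    exact mul_le_mul_right (iter_mono h y) _

end iter

lemma exists_phi {Ω : Set Plane} (hΩ : MeasurableSet Ω) (hfin : volume Ω ≠ ⊤) {a α : ℝ}
    (ha : 0 < a) (hα : 0 < α) :
    ∃ φ : Plane → ℝ, Nice φ ∧ (∀ x, φ x ≤ 1) ∧ (∀ x ∈ Ω, φ x = 1) ∧
      ∀ x ∉ Ω, φ x = α * conv (gk (a + α)) φ x := by
  have hb : 0 < a + α := by positivity
  set K : Plane → ℝ≥0∞ := fun x => ENNReal.ofReal α * gE (a + α) x with hKdef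
  have hK : Measurable K := (measurable_gE _).const_mul _
  have hKi : ∫⁻ x, K x = ENNReal.ofReal (α * (a + α)⁻¹) := by
    rw [hKdef, lintegral_const_mul _ (measurable_gE _), lintegral_gE hb,
      ← ENNReal.ofReal_mul hα.le]
  have hK1 : ∫⁻ x, K x ≤ 1 := by
    rw [hKi, ENNReal.ofReal_le_one, ← div_eq_mul_inv, div_le_one hb]
    linarith
  set V : ℝ := (volume Ω).toReal
  have hV : 0 ≤ V := ENNReal.toReal_nonneg
  have hB : volume Ω + (∫⁻ x, K x) * ENNReal.ofReal (V * (a + α) / a) ≤
      ENNReal.ofReal (V * (a + α) / a) := by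
    rw [hKi, ← ENNReal.ofReal_toReal hfin, ← ENNReal.ofReal_mul (by positivity),
      ← ENNReal.ofReal_add (by positivity) (by positivity)]
    apply ENNReal.ofReal_le_ofReal
    apply le_of_eq
    change V + _ = _
    field_simp
  set Φ : Plane → ℝ≥0∞ := fun x => ⨆ m, iter Ω K m x with hΦ
  have hΦm : Measurable Φ := Measurable.iSup fun m => measurable_iter hΩ hK m
  have hΦ1 : ∀ x, Φ x ≤ 1 := fun x => iSup_le fun m => iter_le_one hK1 m x
  have hΦi : ∫⁻ x, Φ x ≠ ⊤ := by
    refine ne_top_of_le_ne_top ENNReal.ofReal_ne_top (b := ENNReal.ofReal (V * (a + α) / a)) ?_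
    rw [hΦ, lintegral_iSup (fun m => measurable_iter hΩ hK m) iter_mono]
    exact iSup_le fun m => lintegral_iter_le hΩ hK hB m
  have h1 : ∀ x, (Φ x).toReal ≤ 1 := fun x => by
    simpa using ENNReal.toReal_mono ENNReal.one_ne_top (hΦ1 x)
  refine ⟨fun x => (Φ x).toReal, ⟨hΦm.ennreal_toReal, ⟨1, fun x => ?_⟩,
    integrable_toReal_of_lintegral_ne_top hΦm.aemeasurable hΦi⟩, h1, fun x hx => ?_, fun x hx => ?_⟩
  · rw [abs_of_nonneg ENNReal.toReal_nonneg]; exact h1 x
  · have : Φ x = 1 := le_antisymm (hΦ1 x) (le_iSup_of_le 1 (by simp [iter, hx]))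
    simp [this]
  · have e : Φ x = ∫⁻ y, K (x - y) * Φ y := iSup_iter_notMem hΩ hK hx
    have hm : Measurable fun y => K (x - y) * Φ y := by fun_prop
    have hne : ∫⁻ y, K (x - y) * Φ y ≠ ⊤ :=
      ne_top_of_le_ne_top ENNReal.one_ne_top (lconv_le hK1 hΦ1 x)
    simp only
    rw [e, ← integral_toReal hm.aemeasurable (ae_lt_top hm hne), conv, ← integral_const_mul]
    congr 1
    ext y
    simp only [hKdef, gk, ENNReal.toReal_mul, ENNReal.toReal_ofReal hα.le]
    ring

/-- The Dirichlet form of the resolvent kernel. -/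
noncomputable def dform (b α : ℝ) (f h : Plane → ℝ) : ℝ :=
  ∫ x, f x * (h x - α * conv (gk b) h x)

lemma dform_eq {b α : ℝ} (hb : 0 < b) {f h : Plane → ℝ} (hf : Nice f) (hh : Nice h) :
    dform b α f h = (∫ x, f x * h x) - α * form (gk b) f h := by
  rw [form_eq_conv (isKer_gk hb) hf.sq hh.sq, dform, ← integral_const_mul,
    ← integral_sub (hf.integrable_mul hh)
      ((hf.integrable_mul (hh.conv (isKer_gk hb))).const_mul α)]
  congr 1
  ext x
  ring

lemma dform_symm {b α : ℝ} (hb : 0 < b) {f h : Plane → ℝ} (hf : Nice f) (hh : Nice h) :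
    dform b α f h = dform b α h f := by
  rw [dform_eq hb hf hh, dform_eq hb hh hf, form_symm (isKer_gk hb)]
  simp_rw [mul_comm]

lemma dform_nonneg {a α : ℝ} (ha : 0 < a) (hα : 0 < α) {f : Plane → ℝ} (hf : Nice f) :
    0 ≤ dform (a + α) α f f := by
  have hb : 0 < a + α := by positivity
  rw [dform_eq hb hf hf]
  have h1 := abs_form_le (isKer_gk hb) hf.sq hf.sq
  simp_rw [abs_of_nonneg (gk_nonneg _ _)] at h1
  rw [integral_gk hb] at h1
  have h2 := (le_abs_self _).trans h1
  have h3 : 0 ≤ ∫ x, f x ^ 2 := integral_nonneg fun x => sq_nonneg _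
  simp_rw [← pow_two]
  have h4 : α * (a + α)⁻¹ ≤ 1 := by
    rw [← div_eq_mul_inv, div_le_one hb]; linarith
  have h5 : α * form (gk (a + α)) f f ≤ α * (a + α)⁻¹ * ∫ x, f x ^ 2 := by
    calc _ ≤ α * (1 / 2 * (a + α)⁻¹ * ((∫ x, f x ^ 2) + ∫ x, f x ^ 2)) := by gcongr
      _ = _ := by ring
  nlinarith

lemma dform_expand {b α : ℝ} (hb : 0 < b) {f h : Plane → ℝ} (hf : Nice f) (hh : Nice h) (t : ℝ) :
    dform b α (fun x => f x + t * h x) (fun x => f x + t * h x) =
      dform b α f f + 2 * t * dform b α f h + t ^ 2 * dform b α h h := by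
  have hk := isKer_gk hb
  have sf : Nice fun x => f x - α * conv (gk b) f x := hf.sub ((hf.conv hk).const_mul α)
  have sh : Nice fun x => h x - α * conv (gk b) h x := hh.sub ((hh.conv hk).const_mul α)
  have e : dform b α (fun x => f x + t * h x) (fun x => f x + t * h x) =
      dform b α f f + t * dform b α f h + t * dform b α h f + t ^ 2 * dform b α h h := by
    unfold dform
    have i1 := hf.integrable_mul sf
    have i2 := (hf.integrable_mul sh).const_mul t
    have i3 := (hh.integrable_mul sf).const_mul t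
    have i4 := (hh.integrable_mul sh).const_mul (t ^ 2)
    have i12 : Integrable fun x => f x * (f x - α * conv (gk b) f x) +
        t * (f x * (h x - α * conv (gk b) h x)) := i1.add i2
    have i123 : Integrable fun x => f x * (f x - α * conv (gk b) f x) +
        t * (f x * (h x - α * conv (gk b) h x)) + t * (h x * (f x - α * conv (gk b) f x)) :=
      i12.add i3
    rw [← integral_const_mul, ← integral_const_mul, ← integral_const_mul, ← integral_add i1 i2,
      ← integral_add i12 i3, ← integral_add i123 i4]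
    congr 1
    ext x
    rw [conv_add hk hf hh]
    ring
  rw [e, dform_symm hb hh hf]
  ring

lemma dform_resolvent {a α : ℝ} (ha : 0 < a) (hα : 0 < α) {u : Plane → ℝ} (hu : Nice u)
    (f : Plane → ℝ) :
    dform (a + α) α f (fun x => u x + α * conv (gk a) u x) = ∫ x, f x * u x := by
  have hb : 0 < a + α := by positivity
  unfold dform
  congr 1
  ext x
  rw [conv_add (isKer_gk hb) hu (hu.conv (isKer_gk ha)), conv_resolvent ha hα hu]
  ring

lemma integral_mul_resolvent {a α : ℝ} (ha : 0 < a) {u : Plane → ℝ} (hu : Nice u) :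
    ∫ x, (u x + α * conv (gk a) u x) * u x = (∫ x, u x ^ 2) + α * form (gk a) u u := by
  rw [form_eq_conv (isKer_gk ha) hu.sq hu.sq, ← integral_const_mul,
    ← integral_add hu.sq.int ((hu.integrable_mul (hu.conv (isKer_gk ha))).const_mul α)]
  congr 1
  ext x
  ring

/-- The dual inequality. -/
lemma dual_ineq {a α : ℝ} (ha : 0 < a) (hα : 0 < α) {ψ u : Plane → ℝ} (hψ : Nice ψ) (hu : Nice u)
    (t : ℝ) :
    0 ≤ dform (a + α) α ψ ψ + 2 * t * (∫ x, ψ x * u x) +
      t ^ 2 * ((∫ x, u x ^ 2) + α * form (gk a) u u) := by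
  have hb : 0 < a + α := by positivity
  have hv : Nice fun x => u x + α * conv (gk a) u x :=
    hu.add ((hu.conv (isKer_gk ha)).const_mul α)
  have h := dform_nonneg ha hα (hψ.add (hv.const_mul t))
  rw [dform_expand hb hψ hv, dform_resolvent ha hα hu, dform_resolvent ha hα hu,
    integral_mul_resolvent ha hu] at h
  exact h

lemma form_gk_nonneg_nice {a : ℝ} (ha : 0 < a) {u : Plane → ℝ} (hu : Nice u) :
    0 ≤ form (gk a) u u := by
  have h0 : Nice fun _ : Plane => (0 : ℝ) :=
    ⟨measurable_const, ⟨0, by simp⟩, integrable_zero _ _ _⟩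
  by_contra hneg
  push Not at hneg
  have h3 : 0 ≤ ∫ x, u x ^ 2 := integral_nonneg fun x => sq_nonneg _
  have hα : 0 < ((∫ x, u x ^ 2) + 1) / (-form (gk a) u u) := by
    apply div_pos <;> linarith
  have h := dual_ineq ha hα h0 hu 1
  have e : ((∫ x, u x ^ 2) + 1) / (-form (gk a) u u) * form (gk a) u u =
      -((∫ x, u x ^ 2) + 1) := by
    have := hneg.ne
    field_simp
  simp only [dform, zero_mul, integral_zero, mul_zero, one_pow, one_mul, e] at h
  linarith

lemma gk_radial (a : ℝ) (x y : Plane) (h : ‖x‖ = ‖y‖) : gk a x = gk a y := by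
  unfold gk
  rw [le_antisymm (gE_anti a h.ge) (gE_anti a h.le)]

lemma pol_eq_one {n : Plane} {c : ℝ} (hn : ‖n‖ = 1) {Ω : Set Plane} {φ : Plane → ℝ}
    (h1 : ∀ x, φ x ≤ 1) (hΩ : ∀ x ∈ Ω, φ x = 1) {x : Plane} (hx : x ∈ polarize n c Ω) :
    pol n c φ x = 1 := by
  have him : x ∈ reflect n c '' Ω → φ (reflect n c x) = 1 := by
    rintro ⟨y, hy, rfl⟩
    rw [reflect_reflect hn]
    exact hΩ y hy
  rcases hx with ⟨h | h, hH⟩ | ⟨⟨h, h'⟩, hH⟩
  · rw [pol, if_pos hH, hΩ x h, max_eq_left (h1 _)]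
  · rw [pol, if_pos hH, him h, max_eq_right (h1 _)]
  · rw [pol, if_neg hH, hΩ x h, him h', min_self]

/-- The capacity inequality under polarization. -/
lemma cap_ineq {n : Plane} {c : ℝ} (hn : ‖n‖ = 1) {Ω : Set Plane} (hΩ : MeasurableSet Ω)
    (hfin : volume Ω ≠ ⊤) {a α : ℝ} (ha : 0 < a) (hα : 0 < α) :
    ∃ w : Plane → ℝ, Nice w ∧ (∀ x, 0 ≤ w x) ∧ (∀ x ∉ Ω, w x = 0) ∧
      (∫ x, w x ^ 2) + α * form (gk a) w w = ∫ x, w x ∧
      ∀ u : Plane → ℝ, Nice u → (∀ x ∉ polarize n c Ω, u x = 0) → ∀ t : ℝ,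
        0 ≤ (∫ x, w x) + 2 * t * (∫ x, u x) +
          t ^ 2 * ((∫ x, u x ^ 2) + α * form (gk a) u u) := by
  have hb : 0 < a + α := by positivity
  obtain ⟨φ, hφ, h1, hφ1, hφ2⟩ := exists_phi hΩ hfin ha hα
  have hw : Nice fun x => φ x - α * conv (gk (a + α)) φ x :=
    hφ.sub ((hφ.conv (isKer_gk hb)).const_mul α)
  have hw0 : ∀ x ∉ Ω, φ x - α * conv (gk (a + α)) φ x = 0 := fun x hx => by
    rw [← hφ2 x hx, sub_self]
  have hφw : ∀ x, φ x * (φ x - α * conv (gk (a + α)) φ x) = φ x - α * conv (gk (a + α)) φ x := by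
    intro x
    by_cases hx : x ∈ Ω
    · nth_rewrite 1 [hφ1 x hx]
      rw [one_mul]
    · rw [hw0 x hx, mul_zero]
  refine ⟨_, hw, fun x => ?_, hw0, ?_, fun u hu hu0 t => ?_⟩
  · by_cases hx : x ∈ Ω
    · have h2 : conv (gk (a + α)) φ x ≤ (a + α)⁻¹ := by
        rw [← integral_gk hb, ← integral_sub_left_eq_self (gk (a + α)) volume x]
        refine integral_mono (integrable_conv_inner (isKer_gk hb) hφ x)
          ((integrable_gk hb).comp_sub_left x) fun y => ?_
        exact mul_le_of_le_one_right (gk_nonneg _ _) (h1 y)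
      have h4 : α * (a + α)⁻¹ ≤ 1 := by
        rw [← div_eq_mul_inv, div_le_one hb]; linarith
      have h5 := mul_le_mul_of_nonneg_left h2 hα.le
      rw [hφ1 x hx]
      linarith
    · exact (hw0 x hx).ge
  · rw [← integral_mul_resolvent ha hw]
    congr 1
    ext x
    have e := conv_add (isKer_gk ha) hφ (hφ.conv (isKer_gk hb)) (-α) x
    simp only [neg_mul, ← sub_eq_add_neg] at e
    rw [e, conv_resolvent' ha hα hφ]
    linear_combination hφw x
  · have h := dual_ineq ha hα (hφ.pol (c := c) hn) hu t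
    have e1 : ∫ x, pol n c φ x * u x = ∫ x, u x := by
      congr 1
      ext x
      by_cases hx : x ∈ polarize n c Ω
      · rw [pol_eq_one hn h1 hφ1 hx, one_mul]
      · rw [hu0 x hx, mul_zero]
    have e2 : dform (a + α) α φ φ = ∫ x, (φ x - α * conv (gk (a + α)) φ x) := by
      unfold dform
      simp_rw [hφw]
    have e3 : dform (a + α) α (pol n c φ) (pol n c φ) ≤ dform (a + α) α φ φ := by
      rw [dform_eq hb (hφ.pol hn) (hφ.pol hn), dform_eq hb hφ hφ]
      simp_rw [← pow_two]
      rw [integral_pol_sq hn hφ]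
      have := form_le_form_pol (c := c) hn (isKer_gk hb) hφ (gk_radial _)
        (fun x y hx hxy => gk_anti hb hx hxy)
      nlinarith
    rw [e1] at h
    linarith

end Pool.Agent.MP_86d647_an

end MrgPart2

-- ======== part 3: formerly Pool.Agent.MP_86d647_an.LogForm
section MrgPart3

/-!
The logarithmic energy: conditional positivity, and transfer of negative energy from the
polarized set to the original set.
-/

set_option autoImplicit false

open MeasureTheory Filter Set Real
open scoped ENNReal Topology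

namespace Pool.Agent.MP_86d647_an

/-- The logarithmic kernel, cut off at distance `R`. -/
noncomputable def lk (R : ℝ) (x : Plane) : ℝ := if ‖x‖ ≤ R then -log ‖x‖ else 0

lemma isKer_lk (R : ℝ) : IsKer (lk R) := by
  have hm : Measurable (lk R) := by
    unfold lk
    exact Measurable.ite (measurableSet_le (by fun_prop) measurable_const) (by fun_prop)
      measurable_const
  refine ⟨hm, ?_, fun x => by simp [lk]⟩
  obtain ⟨a, ha, c, h⟩ := exists_gk_approx R one_pos
  have i1 : Integrable ((Metric.closedBall (0 : Plane) R).indicator fun _ => |c| + 1) := by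
    rw [integrable_indicator_iff measurableSet_closedBall]
    exact integrableOn_const measure_closedBall_lt_top.ne
  refine Integrable.mono' (((integrable_gk ha).const_mul (2 * π)).add i1)
    hm.aestronglyMeasurable ?_
  filter_upwards [ae_ne_zero] with x hx
  have h0 : 0 ≤ 2 * π * gk a x := by
    have := gk_nonneg a x
    positivity
  simp only [Pi.add_apply, lk]
  split_ifs with hR
  · rw [indicator_of_mem (by simpa using hR), Real.norm_eq_abs, abs_neg]
    have h1 := h x hx hR
    have h2 := le_abs_self c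
    have h3 := neg_abs_le c
    rw [abs_le] at h1 ⊢
    constructor <;> linarith [h1.1, h1.2]
  · rw [indicator_of_notMem (by simpa using hR)]
    simpa using h0

lemma ae_prod_sub_ne_zero : ∀ᵐ p ∂vol2, p.1 - p.2 ≠ 0 := by
  rw [Measure.ae_prod_iff_ae_ae]
  · exact Eventually.of_forall fun x => ae_sub_ne_zero x
  · exact (measurableSet_eq_fun (by fun_prop) measurable_const).compl

lemma form_approx {R δ a c : ℝ} (ha : 0 < a)
    (h : ∀ x : Plane, x ≠ 0 → ‖x‖ ≤ R → |2 * π * gk a x - c + log ‖x‖| ≤ δ)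
    {S : Set Plane} (hS : ∀ x ∈ S, ∀ y ∈ S, ‖x - y‖ ≤ R) {u : Plane → ℝ} (hu : Sq u)
    (hi : Integrable u) (h0 : ∀ x ∉ S, u x = 0) :
    |2 * π * form (gk a) u u - c * (∫ x, u x) ^ 2 - form (lk R) u u| ≤ δ * (∫ x, |u x|) ^ 2 := by
  have i1 := (integrable_form (isKer_gk ha) hu hu).const_mul (2 * π)
  have i2 := (hi.mul_prod hi).const_mul c
  have i3 := integrable_form (isKer_lk R) hu hu
  have i12 : Integrable (fun p : Plane × Plane => 2 * π * (gk a (p.1 - p.2) * u p.1 * u p.2) -
      c * (u p.1 * u p.2)) vol2 := i1.sub i2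
  rw [pow_two, pow_two, ← integral_prod_mul, ← integral_prod_mul (fun x => |u x|) (fun x => |u x|),
    form, form, ← integral_const_mul, ← integral_const_mul, ← integral_const_mul,
    ← integral_sub i1 i2, ← integral_sub i12 i3, ← Real.norm_eq_abs]
  refine norm_integral_le_of_norm_le ((hi.abs.mul_prod hi.abs).const_mul δ) ?_
  filter_upwards [ae_prod_sub_ne_zero] with p hp
  by_cases h1 : p.1 ∈ S
  · by_cases h2 : p.2 ∈ S
    · have hR := hS _ h1 _ h2
      have e : 2 * π * (gk a (p.1 - p.2) * u p.1 * u p.2) - c * (u p.1 * u p.2) -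
          lk R (p.1 - p.2) * u p.1 * u p.2 =
          (2 * π * gk a (p.1 - p.2) - c + log ‖p.1 - p.2‖) * (u p.1 * u p.2) := by
        rw [lk, if_pos hR]; ring
      rw [e, Real.norm_eq_abs, abs_mul, abs_mul]
      exact mul_le_mul_of_nonneg_right (h _ hp hR) (by positivity)
    · simp [h0 _ h2]
  · simp [h0 _ h1]

/-- Truncation at height `m`. -/
noncomputable def trunc (u : Plane → ℝ) (m : ℕ) (x : Plane) : ℝ := max (-(m : ℝ)) (min m (u x))

lemma abs_trunc_le (u : Plane → ℝ) (m : ℕ) (x : Plane) : |trunc u m x| ≤ |u x| := by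
  have h0 : (0 : ℝ) ≤ m := Nat.cast_nonneg m
  have h1 := le_abs_self (u x)
  have h2 := neg_abs_le (u x)
  have h3 := abs_nonneg (u x)
  unfold trunc
  rw [abs_le]
  constructor
  · exact le_max_of_le_right (le_min (by linarith) h2)
  · exact max_le (by linarith) (min_le_of_right_le h1)

lemma trunc_eventually (u : Plane → ℝ) (x : Plane) : ∀ᶠ m in atTop, trunc u m x = u x := by
  filter_upwards [tendsto_natCast_atTop_atTop.eventually_ge_atTop |u x|] with m hm
  rw [abs_le] at hm
  rw [trunc, min_eq_right hm.2, max_eq_right hm.1]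

lemma tendsto_trunc (u : Plane → ℝ) (x : Plane) :
    Tendsto (fun m => trunc u m x) atTop (𝓝 (u x)) :=
  tendsto_const_nhds.congr' ((trunc_eventually u x).mono fun _ h => h.symm)

lemma measurable_trunc {u : Plane → ℝ} (hu : Measurable u) (m : ℕ) : Measurable (trunc u m) := by
  unfold trunc
  fun_prop

lemma nice_trunc {u : Plane → ℝ} (hu : Measurable u) (hi : Integrable u) (m : ℕ) :
    Nice (trunc u m) := by
  refine ⟨measurable_trunc hu m, ⟨m, fun x => ?_⟩, ?_⟩
  · have h0 : (0 : ℝ) ≤ m := Nat.cast_nonneg m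
    unfold trunc
    rw [abs_le]
    exact ⟨le_max_left _ _, max_le (by linarith) (min_le_left _ _)⟩
  · exact Integrable.mono' hi.abs (measurable_trunc hu m).aestronglyMeasurable
      (Eventually.of_forall fun x => abs_trunc_le u m x)

lemma trunc_eq_zero {u : Plane → ℝ} {x : Plane} (h : u x = 0) (m : ℕ) : trunc u m x = 0 := by
  have := abs_trunc_le u m x
  rw [h, abs_zero] at this
  exact abs_nonpos_iff.mp this

lemma tendsto_integral_trunc {u : Plane → ℝ} (hu : Measurable u) (hi : Integrable u) :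
    Tendsto (fun m => ∫ x, trunc u m x) atTop (𝓝 (∫ x, u x)) :=
  tendsto_integral_of_dominated_convergence (fun x => |u x|)
    (fun m => (measurable_trunc hu m).aestronglyMeasurable) hi.abs
    (fun m => Eventually.of_forall fun x => abs_trunc_le u m x)
    (Eventually.of_forall fun x => tendsto_trunc u x)

lemma tendsto_integral_trunc_sq {u : Plane → ℝ} (hu : Sq u) :
    Tendsto (fun m => ∫ x, trunc u m x ^ 2) atTop (𝓝 (∫ x, u x ^ 2)) :=
  tendsto_integral_of_dominated_convergence (fun x => u x ^ 2)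
    (fun m => ((measurable_trunc hu.meas m).pow_const 2).aestronglyMeasurable) hu.int
    (fun m => Eventually.of_forall fun x => by
      rw [Real.norm_eq_abs, abs_of_nonneg (sq_nonneg _)]
      exact sq_le_sq.mpr (abs_trunc_le u m x))
    (Eventually.of_forall fun x => (tendsto_trunc u x).pow 2)

lemma tendsto_form_trunc {k u : Plane → ℝ} (hk : IsKer k) (hu : Sq u) :
    Tendsto (fun m => form k (trunc u m) (trunc u m)) atTop (𝓝 (form k u u)) := by
  refine tendsto_integral_of_dominated_convergence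
    (fun p : Plane × Plane => |k (p.1 - p.2) * u p.1 * u p.2|) (fun m => ?_)
    (integrable_form hk hu hu).abs (fun m => Eventually.of_forall fun p => ?_)
    (Eventually.of_forall fun p => ?_)
  · have := hk.meas
    have := measurable_trunc hu.meas m
    apply Measurable.aestronglyMeasurable
    fun_prop
  · rw [Real.norm_eq_abs, abs_mul, abs_mul, abs_mul, abs_mul]
    have h1 := abs_trunc_le u m p.1
    have h2 := abs_trunc_le u m p.2
    gcongr
  · exact ((tendsto_trunc u p.1).const_mul _).mul (tendsto_trunc u p.2)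

lemma form_gk_nonneg {a : ℝ} (ha : 0 < a) {u : Plane → ℝ} (hu : Sq u) (hi : Integrable u) :
    0 ≤ form (gk a) u u :=
  ge_of_tendsto' (tendsto_form_trunc (isKer_gk ha) hu)
    fun m => form_gk_nonneg_nice ha (nice_trunc hu.meas hi m)

/-- Conditional positivity of the logarithmic energy. -/
lemma form_lk_nonneg {R : ℝ} {S : Set Plane} (hS : ∀ x ∈ S, ∀ y ∈ S, ‖x - y‖ ≤ R)
    {u : Plane → ℝ} (hu : Sq u) (hi : Integrable u) (h0 : ∀ x ∉ S, u x = 0)
    (hm : ∫ x, u x = 0) : 0 ≤ form (lk R) u u := by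
  refine le_of_forall_pos_le_add fun ε hε => ?_
  set M := (∫ x, |u x|) ^ 2
  have hM : 0 ≤ M := sq_nonneg _
  obtain ⟨a, ha, c, h⟩ := exists_gk_approx R (δ := ε / (M + 1)) (by positivity)
  have h1 := form_approx ha h hS hu hi h0
  have h2 := form_gk_nonneg ha hu hi
  have h3 : 0 ≤ 2 * π * form (gk a) u u := by positivity
  have h4 : ε / (M + 1) * M ≤ ε := by
    rw [div_mul_eq_mul_div, div_le_iff₀ (by positivity)]
    nlinarith
  rw [hm, abs_le] at h1
  have := h1.2
  simp only [M] at h4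
  nlinarith

/-- Negative penalized energy passes from the polarized set to the original set, with a
nonnegative test function. -/
lemma transfer {n : Plane} {c : ℝ} (hn : ‖n‖ = 1) {Ω : Set Plane} (hΩ : MeasurableSet Ω)
    (hfin : volume Ω ≠ ⊤) {R : ℝ} (hR : ∀ x ∈ Ω, ∀ y ∈ Ω, ‖x - y‖ ≤ R)
    (hR' : ∀ x ∈ polarize n c Ω, ∀ y ∈ polarize n c Ω, ‖x - y‖ ≤ R)
    {u : Plane → ℝ} (hu : Sq u) (hi : Integrable u) (h0 : ∀ x ∉ polarize n c Ω, u x = 0)
    {μ : ℝ} (hμ : 0 < μ) (hneg : form (lk R) u u + μ * ∫ x, u x ^ 2 < 0) :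
    ∃ w : Plane → ℝ, Nice w ∧ (∀ x, 0 ≤ w x) ∧ (∀ x ∉ Ω, w x = 0) ∧
      form (lk R) w w + μ * ∫ x, w x ^ 2 < 0 := by
  set β := -(form (lk R) u u + μ * ∫ x, u x ^ 2) with hβ
  have hβ0 : 0 < β := by linarith
  set M := (∫ x, |u x|) ^ 2 with hM
  have hM0 : 0 ≤ M := sq_nonneg _
  set m := ∫ x, u x with hm
  have hmM : m ^ 2 ≤ M := by
    rw [hM, ← sq_abs m]
    have : |m| ≤ ∫ x, |u x| := abs_integral_le_integral_abs
    gcongr
  set δ := β / (2 * M + 1) with hδ
  have hδ0 : 0 < δ := by positivity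
  have hδM : δ * M + δ * m ^ 2 < β := by
    have : δ * (2 * M + 1) = β := by rw [hδ]; field_simp
    nlinarith
  obtain ⟨a, ha, c', h⟩ := exists_gk_approx R hδ0
  have hα : 0 < 2 * π / μ := by positivity
  obtain ⟨w, hw, hw0, hwΩ, hws, hcap⟩ := cap_ineq (c := c) hn hΩ hfin ha hα
  refine ⟨w, hw, hw0, hwΩ, ?_⟩
  set s := ∫ x, w x with hs
  have hs0 : 0 ≤ s := integral_nonneg hw0
  set A := (∫ x, u x ^ 2) + 2 * π / μ * form (gk a) u u with hA
  have hq : ∀ t : ℝ, 0 ≤ s + 2 * t * m + t ^ 2 * A := by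
    intro t
    refine ge_of_tendsto' ((((tendsto_integral_trunc hu.meas hi).const_mul (2 * t)).const_add s).add
      (((tendsto_integral_trunc_sq hu).add
        ((tendsto_form_trunc (isKer_gk ha) hu).const_mul (2 * π / μ))).const_mul (t ^ 2)))
      fun j => ?_
    exact hcap _ (nice_trunc hu.meas hi j) (fun x hx => trunc_eq_zero (h0 x hx) j) t
  have hd : m ^ 2 ≤ s * A := by
    have := discrim_le_zero (a := A) (b := 2 * m) (c := s) fun t => by
      have := hq t
      linarith
    rw [discrim] at this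
    nlinarith
  have hA0 : 0 ≤ A := by
    have h1 := form_gk_nonneg ha hu hi
    have h2 : 0 ≤ ∫ x, u x ^ 2 := integral_nonneg fun x => sq_nonneg _
    positivity
  have h1 := form_approx ha h hR' hu hi h0
  have h2 := form_approx ha h hR hw.sq hw.int hwΩ
  simp_rw [abs_of_nonneg (hw0 _)] at h2
  rw [← hs] at h2
  rw [← hm, ← hM] at h1
  rw [abs_le] at h1 h2
  have e1 : μ * A = μ * (∫ x, u x ^ 2) + 2 * π * form (gk a) u u := by
    rw [hA]; field_simp
  have e2 : μ * s = μ * (∫ x, w x ^ 2) + 2 * π * form (gk a) w w := by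
    rw [← hws]; field_simp
  have b1 : μ * A ≤ c' * m ^ 2 - (β - δ * M) := by linarith [h1.2]
  have b2 : form (lk R) w w + μ * ∫ x, w x ^ 2 ≤ μ * s - c' * s ^ 2 + δ * s ^ 2 := by
    linarith [h2.1]
  have hδm : 0 ≤ δ * m ^ 2 := by positivity
  have hm2 : 0 < m ^ 2 := by
    rcases (sq_nonneg m).lt_or_eq with h3 | h3
    · exact h3
    · rw [← h3] at b1
      have := mul_nonneg hμ.le hA0
      linarith
  have hs1 : 0 < s := by
    rcases hs0.lt_or_eq with h3 | h3
    · exact h3
    · rw [← h3] at hd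
      linarith
  have b3 : μ * m ^ 2 ≤ s * (c' * m ^ 2 - (β - δ * M)) := by
    calc μ * m ^ 2 ≤ μ * (s * A) := by gcongr
      _ = s * (μ * A) := by ring
      _ ≤ _ := by gcongr
  have b4 : m ^ 2 * (μ * s - c' * s ^ 2 + δ * s ^ 2) < 0 := by
    have b5 := mul_le_mul_of_nonneg_left b3 hs0
    have b6 : s ^ 2 * (δ * M + δ * m ^ 2 - β) < 0 :=
      mul_neg_of_pos_of_neg (by positivity) (by linarith)
    nlinarith
  have b7 : μ * s - c' * s ^ 2 + δ * s ^ 2 < 0 := by
    by_contra h3
    push Not at h3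
    have := mul_nonneg hm2.le h3
    linarith
  linarith

end Pool.Agent.MP_86d647_an

end MrgPart3

-- ======== part 4: formerly Pool.Agent.MP_86d647_an.Hilbert
section MrgPart4

/-!
A symmetric bounded form that is nonnegative on a closed hyperplane and takes a negative value
has its bottom as an eigenvalue.
-/

set_option autoImplicit false

namespace Pool.Agent.MP_86d647_an

lemma exists_eigen {H : Type} [NormedAddCommGroup H] [InnerProductSpace ℝ H] [CompleteSpace H]
    (B : H →L[ℝ] H →L[ℝ] ℝ) (hsymm : ∀ u v, B u v = B v u) (l : H →L[ℝ] ℝ)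
    (hpos : ∀ v, l v = 0 → 0 ≤ B v v) {μ : ℝ} (hμ : 0 ≤ μ) {w : H}
    (hw : B w w + μ * ‖w‖ ^ 2 < 0) :
    ∃ lam : ℝ, lam < -μ ∧ ∃ u : H, u ≠ 0 ∧ ∀ v, B u v = lam * inner ℝ u v := by
  set S : Set ℝ := {r | ∃ v : H, v ≠ 0 ∧ r = B v v / ‖v‖ ^ 2} with hS
  have hw0 : w ≠ 0 := by
    rintro rfl
    simp at hw
  have hwn : 0 < ‖w‖ ^ 2 := by positivity
  have hbdd : BddBelow S := by
    refine ⟨-‖B‖, ?_⟩
    rintro r ⟨v, hv, rfl⟩
    have hvn : 0 < ‖v‖ ^ 2 := by positivity
    rw [le_div_iff₀ hvn]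
    have h1 := B.le_opNorm₂ v v
    rw [Real.norm_eq_abs] at h1
    have h2 := neg_abs_le (B v v)
    nlinarith
  set lam := sInf S with hlam
  have hle : ∀ v : H, lam * ‖v‖ ^ 2 ≤ B v v := by
    intro v
    by_cases hv : v = 0
    · simp [hv]
    · have hvn : 0 < ‖v‖ ^ 2 := by positivity
      have := csInf_le hbdd ⟨v, hv, rfl⟩
      rwa [le_div_iff₀ hvn] at this
  have hlt : lam < -μ := by
    have := hle w
    by_contra h
    push Not at h
    nlinarith
  have hl0 : 0 < -lam := by linarith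
  have hlw : l w ≠ 0 := by
    intro h
    have := hpos w h
    nlinarith
  obtain ⟨B', hB'a⟩ : ∃ B' : H →L[ℝ] H →L[ℝ] ℝ,
      ∀ u v, B' u v = B u v - lam * inner ℝ u v := by
    let I : H →L[ℝ] H →L[ℝ] ℝ := innerSL ℝ
    refine ⟨B - lam • I, fun u v => ?_⟩
    have hI : I u v = inner ℝ u v := rfl
    simp [hI]
  have hB's : ∀ u v, B' u v = B' v u := by
    intro u v
    rw [hB'a, hB'a, hsymm, real_inner_comm]
  set V : Submodule ℝ H := l.ker with hV
  have : CompleteSpace V := (l.isClosed_ker).completeSpace_coe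
  have hVpos : ∀ v : H, l v = 0 → -lam * ‖v‖ ^ 2 ≤ B' v v := by
    intro v hv
    rw [hB'a, real_inner_self_eq_norm_sq]
    have := hpos v hv
    linarith
  set B0 : V →L[ℝ] V →L[ℝ] ℝ := B'.bilinearComp V.subtypeL V.subtypeL with hB0
  have hco : IsCoercive B0 := by
    refine ⟨-lam, hl0, fun v => ?_⟩
    have := hVpos v v.2
    simpa [hB0, mul_assoc, pow_two] using this
  set y : V := (InnerProductSpace.toDual ℝ V).symm ((B' w).comp V.subtypeL) with hy
  set z : V := hco.continuousLinearEquivOfBilin.symm y with hz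
  have hzv : ∀ v : V, B' z v = B' w v := by
    intro v
    have h1 := hco.continuousLinearEquivOfBilin_apply z v
    rw [hz, ContinuousLinearEquiv.apply_symm_apply, hy,
      InnerProductSpace.toDual_symm_apply] at h1
    simpa [hB0] using h1.symm
  set u : H := w - z with hu
  have hlu : l u = l w := by
    have : l z = 0 := z.2
    rw [hu, map_sub, this, sub_zero]
  have hlu0 : l u ≠ 0 := hlu ▸ hlw
  have hu0 : u ≠ 0 := by
    intro h
    rw [h, map_zero] at hlu0
    exact hlu0 rfl
  have huv : ∀ v : H, l v = 0 → B' u v = 0 := by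
    intro v hv
    have := hzv ⟨v, hv⟩
    rw [hu, map_sub, sub_apply]
    simp only at this
    linarith
  have hdec : ∀ x : H, ∃ t : ℝ, ∃ v : H, l v = 0 ∧ x = t • u + v := by
    intro x
    refine ⟨l x / l u, x - (l x / l u) • u, ?_, by abel⟩
    rw [map_sub, map_smul, smul_eq_mul, div_mul_cancel₀ _ hlu0, sub_self]
  have hc0 : 0 ≤ B' u u := by
    rw [hB'a, real_inner_self_eq_norm_sq]
    linarith [hle u]
  have hc : B' u u = 0 := by
    by_contra hne
    have hc1 : 0 < B' u u := lt_of_le_of_ne hc0 (Ne.symm hne)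
    have hun : 0 < ‖u‖ ^ 2 := by positivity
    set ε := min (B' u u / (2 * ‖u‖ ^ 2)) (-lam / 2) with hε
    have hε0 : 0 < ε := lt_min (by positivity) (by positivity)
    have hε1 : ε * (2 * ‖u‖ ^ 2) ≤ B' u u := by
      rw [← le_div_iff₀ (by positivity)]
      exact min_le_left _ _
    have hε2 : ε ≤ -lam / 2 := min_le_right _ _
    have hall : ∀ x : H, ε * ‖x‖ ^ 2 ≤ B' x x := by
      intro x
      obtain ⟨t, v, hv, rfl⟩ := hdec x
      have e1 : B' (t • u + v) (t • u + v) = t ^ 2 * B' u u + B' v v := by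
        simp only [map_add, map_smul, add_apply,
          smul_apply, smul_eq_mul, huv v hv, hB's v u]
        ring
      have e2 : ‖t • u + v‖ ^ 2 ≤ 2 * (t ^ 2 * ‖u‖ ^ 2) + 2 * ‖v‖ ^ 2 := by
        have h1 := norm_add_le (t • u) v
        have h2 : ‖t • u‖ ^ 2 = t ^ 2 * ‖u‖ ^ 2 := by
          rw [norm_smul, mul_pow, Real.norm_eq_abs, sq_abs]
        rw [← h2]
        have h3 : ‖t • u + v‖ ^ 2 ≤ (‖t • u‖ + ‖v‖) ^ 2 := by gcongr
        nlinarith [sq_nonneg (‖t • u‖ - ‖v‖)]
      have e3 := hVpos v hv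
      have e4 := mul_le_mul_of_nonneg_left hε1 (sq_nonneg t)
      have e5 := mul_le_mul_of_nonneg_right hε2 (sq_nonneg ‖v‖)
      have e6 := mul_le_mul_of_nonneg_left e2 hε0.le
      rw [e1]
      nlinarith
    have : lam + ε ≤ lam := by
      refine le_csInf ⟨_, w, hw0, rfl⟩ ?_
      rintro r ⟨v, hv, rfl⟩
      have hvn : 0 < ‖v‖ ^ 2 := by positivity
      rw [le_div_iff₀ hvn]
      have := hall v
      rw [hB'a, real_inner_self_eq_norm_sq] at this
      linarith
    linarith
  refine ⟨lam, hlt, u, hu0, fun x => ?_⟩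
  obtain ⟨t, v, hv, rfl⟩ := hdec x
  have : B' u (t • u + v) = 0 := by
    rw [map_add, map_smul, hc, huv v hv]
    simp
  rw [hB'a] at this
  linarith

end Pool.Agent.MP_86d647_an

end MrgPart4

-- ======== part 5: formerly Pool.Agent.MP_86d647_an.Spec
section MrgPart5

/-!
Eigenvalues of the logarithmic potential operator and the logarithmic energy.
-/

set_option autoImplicit false

open MeasureTheory Filter Set Real
open scoped ENNReal Topology

namespace Pool.Agent.MP_86d647_an

lemma form_congr (k : Plane → ℝ) {f f' h h' : Plane → ℝ} (hf : f =ᵐ[volume] f')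
    (hh : h =ᵐ[volume] h') : form k f h = form k f' h' := by
  refine integral_congr_ae ?_
  filter_upwards [Measure.quasiMeasurePreserving_fst.ae hf,
    Measure.quasiMeasurePreserving_snd.ae hh] with p h1 h2
  rw [h1, h2]

lemma form_add_left {k f g h : Plane → ℝ} (hk : IsKer k) (hf : Sq f) (hg : Sq g) (hh : Sq h) :
    form k (fun x => f x + g x) h = form k f h + form k g h := by
  unfold form
  rw [← integral_add (integrable_form hk hf hh) (integrable_form hk hg hh)]
  congr 1
  ext p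
  ring

lemma form_smul_left (k f h : Plane → ℝ) (c : ℝ) :
    form k (fun x => c * f x) h = c * form k f h := by
  unfold form
  rw [← integral_const_mul]
  congr 1
  ext p
  ring

section ext

variable {Ω : Set Plane}

/-- Extension by zero of an element of `L²(Ω)`. -/
noncomputable def ext0 (f : Lp ℝ 2 (volume.restrict Ω)) : Plane → ℝ := Ω.indicator f

lemma ext0_zero (f : Lp ℝ 2 (volume.restrict Ω)) (x : Plane) (hx : x ∉ Ω) : ext0 f x = 0 :=
  indicator_of_notMem hx _

lemma sq_ext0 (hΩ : MeasurableSet Ω) (f : Lp ℝ 2 (volume.restrict Ω)) : Sq (ext0 f) := by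
  refine ⟨(Lp.stronglyMeasurable f).measurable.indicator hΩ, ?_⟩
  have h := (memLp_two_iff_integrable_sq (Lp.aestronglyMeasurable f)).mp (Lp.memLp f)
  have e : (fun x => ext0 f x ^ 2) = Ω.indicator fun x => f x ^ 2 := by
    ext x
    by_cases hx : x ∈ Ω <;> simp [ext0, hx]
  rw [e, integrable_indicator_iff hΩ]
  exact h

lemma integrable_ext0 (hΩ : MeasurableSet Ω) (hfin : volume Ω ≠ ⊤)
    (f : Lp ℝ 2 (volume.restrict Ω)) : Integrable (ext0 f) := by
  have : IsFiniteMeasure (volume.restrict Ω) := isFiniteMeasure_restrict.mpr hfin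
  rw [ext0, integrable_indicator_iff hΩ]
  exact (Lp.memLp f).integrable one_le_two

lemma ext0_congr (hΩ : MeasurableSet Ω) {f : Lp ℝ 2 (volume.restrict Ω)} {g : Plane → ℝ}
    (h : f =ᵐ[volume.restrict Ω] g) : ext0 f =ᵐ[volume] Ω.indicator g :=
  (ae_eq_restrict_iff_indicator_ae_eq hΩ).mp h

lemma ext0_add (hΩ : MeasurableSet Ω) (f g : Lp ℝ 2 (volume.restrict Ω)) :
    ext0 (f + g) =ᵐ[volume] fun x => ext0 f x + ext0 g x := by
  filter_upwards [ext0_congr hΩ (Lp.coeFn_add f g)] with x hx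
  rw [hx]
  by_cases h : x ∈ Ω <;> simp [ext0, h]

lemma ext0_smul (hΩ : MeasurableSet Ω) (c : ℝ) (f : Lp ℝ 2 (volume.restrict Ω)) :
    ext0 (c • f) =ᵐ[volume] fun x => c * ext0 f x := by
  filter_upwards [ext0_congr hΩ (Lp.coeFn_smul c f)] with x hx
  rw [hx]
  by_cases h : x ∈ Ω <;> simp [ext0, h]

lemma inner_eq_ext0 (hΩ : MeasurableSet Ω) (f g : Lp ℝ 2 (volume.restrict Ω)) :
    inner ℝ f g = ∫ x, ext0 f x * ext0 g x := by
  rw [L2.inner_def, ← integral_indicator hΩ]
  congr 1
  ext x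
  by_cases h : x ∈ Ω <;> simp [ext0, h, mul_comm]

lemma norm_sq_eq_ext0 (hΩ : MeasurableSet Ω) (f : Lp ℝ 2 (volume.restrict Ω)) :
    ‖f‖ ^ 2 = ∫ x, ext0 f x ^ 2 := by
  rw [← real_inner_self_eq_norm_sq, inner_eq_ext0 hΩ]
  simp_rw [pow_two]

lemma exists_bilin (hΩ : MeasurableSet Ω) {k : Plane → ℝ} (hk : IsKer k) :
    ∃ B : Lp ℝ 2 (volume.restrict Ω) →L[ℝ] Lp ℝ 2 (volume.restrict Ω) →L[ℝ] ℝ,
      ∀ f g, B f g = form k (ext0 f) (ext0 g) := by
  have hadd : ∀ f f' g : Lp ℝ 2 (volume.restrict Ω), form k (ext0 (f + f')) (ext0 g) =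
      form k (ext0 f) (ext0 g) + form k (ext0 f') (ext0 g) := by
    intro f f' g
    rw [form_congr k (ext0_add hΩ f f') EventuallyEq.rfl,
      form_add_left hk (sq_ext0 hΩ f) (sq_ext0 hΩ f') (sq_ext0 hΩ g)]
  have hsmul : ∀ (c : ℝ) (f g : Lp ℝ 2 (volume.restrict Ω)), form k (ext0 (c • f)) (ext0 g) =
      c * form k (ext0 f) (ext0 g) := by
    intro c f g
    rw [form_congr k (ext0_smul hΩ c f) EventuallyEq.rfl, form_smul_left]
  let B₀ : Lp ℝ 2 (volume.restrict Ω) →ₗ[ℝ] Lp ℝ 2 (volume.restrict Ω) →ₗ[ℝ] ℝ :=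
    LinearMap.mk₂ ℝ (fun f g => form k (ext0 f) (ext0 g)) hadd hsmul
      (fun f g g' => by
        rw [form_symm hk, hadd, form_symm hk (ext0 f), form_symm hk (ext0 f)])
      (fun c f g => by rw [form_symm hk, hsmul, form_symm hk (ext0 f), smul_eq_mul])
  have hB₀ : ∀ f g, B₀ f g = form k (ext0 f) (ext0 g) := fun f g => rfl
  have hunit : ∀ f g, ‖f‖ = 1 → ‖g‖ = 1 → ‖B₀ f g‖ ≤ ∫ x, |k x| := by
    intro f g hf hg
    have h := abs_form_le hk (sq_ext0 hΩ f) (sq_ext0 hΩ g)
    rw [← norm_sq_eq_ext0 hΩ, ← norm_sq_eq_ext0 hΩ, hf, hg] at h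
    rw [hB₀, Real.norm_eq_abs]
    linarith
  refine ⟨B₀.mkContinuous₂ (∫ x, |k x|) fun f g => ?_, fun f g => rfl⟩
  by_cases hf : f = 0
  · simp [hf]
  by_cases hg : g = 0
  · simp [hg]
  have hf' : 0 < ‖f‖ := norm_pos_iff.mpr hf
  have hg' : 0 < ‖g‖ := norm_pos_iff.mpr hg
  have h := hunit (‖f‖⁻¹ • f) (‖g‖⁻¹ • g) (norm_smul_inv_norm hf) (norm_smul_inv_norm hg)
  simp only [map_smul, LinearMap.smul_apply, norm_smul, norm_inv, norm_norm] at h
  calc ‖B₀ f g‖ = (‖g‖⁻¹ * (‖f‖⁻¹ * ‖B₀ f g‖)) * ‖f‖ * ‖g‖ := by field_simp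
    _ ≤ _ := by gcongr

lemma conv_lk_eq (hΩ : MeasurableSet Ω) {R : ℝ} (hR : ∀ x ∈ Ω, ∀ y ∈ Ω, ‖x - y‖ ≤ R)
    (u : Plane → ℝ) {x : Plane} (hx : x ∈ Ω) :
    conv (lk R) (Ω.indicator u) x = logPot Ω u x := by
  rw [conv, logPot, ← integral_indicator hΩ]
  congr 1
  ext y
  by_cases hy : y ∈ Ω
  · simp [hy, lk, hR x hx y hy, dist_eq_norm]
  · simp [hy]

/-- An eigenvalue is a value of the Rayleigh quotient. -/
lemma IsEigenvalue.exists_form (hΩ : MeasurableSet Ω) (hfin : volume Ω ≠ ⊤) {R : ℝ}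
    (hR : ∀ x ∈ Ω, ∀ y ∈ Ω, ‖x - y‖ ≤ R) {τ : ℝ} (h : IsEigenvalue Ω τ) :
    ∃ u : Plane → ℝ, Sq u ∧ Integrable u ∧ (∀ x ∉ Ω, u x = 0) ∧ 0 < ∫ x, u x ^ 2 ∧
      form (lk R) u u = τ * ∫ x, u x ^ 2 := by
  obtain ⟨u, hu, hu0, hue⟩ := h
  set f := hu.toLp u with hf
  have hfu : f =ᵐ[volume.restrict Ω] u := hu.coeFn_toLp
  refine ⟨ext0 f, sq_ext0 hΩ f, integrable_ext0 hΩ hfin f, ext0_zero f, ?_, ?_⟩
  · rw [← norm_sq_eq_ext0 hΩ]
    have : f ≠ 0 := by
      intro h0
      apply hu0
      refine hfu.symm.trans ?_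
      rw [h0]
      exact Lp.coeFn_zero _ _ _
    positivity
  · rw [form_eq_conv (isKer_lk R) (sq_ext0 hΩ f) (sq_ext0 hΩ f), ← integral_const_mul]
    refine integral_congr_ae ?_
    have h1 := (ae_restrict_iff' hΩ).mp hue
    have h2 := (ae_restrict_iff' hΩ).mp hfu
    filter_upwards [h1, h2] with x hx1 hx2
    by_cases hx : x ∈ Ω
    · have e : logPot Ω f x = logPot Ω u x := by
        refine integral_congr_ae ?_
        filter_upwards [hfu] with y hy
        rw [hy]
      rw [ext0, conv_lk_eq hΩ hR _ hx, e, hx1 hx, indicator_of_mem hx, hx2 hx]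
      ring
    · simp [ext0_zero f x hx]

lemma IsEigenvalue.lower_bound (hΩ : MeasurableSet Ω) (hfin : volume Ω ≠ ⊤) {R : ℝ}
    (hR : ∀ x ∈ Ω, ∀ y ∈ Ω, ‖x - y‖ ≤ R) {τ : ℝ} (h : IsEigenvalue Ω τ) :
    -(∫ x, |lk R x|) ≤ τ := by
  obtain ⟨u, hu, -, -, hpos, he⟩ := h.exists_form hΩ hfin hR
  have h1 := abs_form_le (isKer_lk R) hu hu
  have h2 := neg_abs_le (form (lk R) u u)
  rw [he] at h1 h2
  by_contra h3
  push Not at h3
  nlinarith

/-- A negative penalized energy produces an eigenvalue below the penalty. -/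
lemma exists_eigenvalue (hΩ : MeasurableSet Ω) (hfin : volume Ω ≠ ⊤) {R : ℝ}
    (hR : ∀ x ∈ Ω, ∀ y ∈ Ω, ‖x - y‖ ≤ R) {w : Plane → ℝ} (hw : Sq w) (hw0 : ∀ x ∉ Ω, w x = 0)
    {μ : ℝ} (hμ : 0 ≤ μ) (hneg : form (lk R) w w + μ * ∫ x, w x ^ 2 < 0) :
    ∃ lam : ℝ, lam < -μ ∧ IsEigenvalue Ω lam := by
  have : IsFiniteMeasure (volume.restrict Ω) := isFiniteMeasure_restrict.mpr hfin
  have hk := isKer_lk R
  obtain ⟨B, hB⟩ := exists_bilin hΩ hk
  have hind : ∀ A : Set Plane, MeasurableSet A →
      ∃ v : Lp ℝ 2 (volume.restrict Ω), ext0 v =ᵐ[volume] (A ∩ Ω).indicator 1 := by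
    intro A hA
    have hm : MemLp (A.indicator (1 : Plane → ℝ)) 2 (volume.restrict Ω) :=
      (memLp_const (1 : ℝ)).indicator hA
    refine ⟨hm.toLp _, (ext0_congr hΩ hm.coeFn_toLp).trans ?_⟩
    rw [indicator_indicator, inter_comm]
  obtain ⟨one, hone⟩ := hind univ MeasurableSet.univ
  have hl : ∀ f : Lp ℝ 2 (volume.restrict Ω), innerSL ℝ one f = ∫ x, ext0 f x := by
    intro f
    rw [innerSL_apply_apply, inner_eq_ext0 hΩ]
    refine integral_congr_ae ?_
    filter_upwards [hone] with x hx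
    rw [hx]
    by_cases h : x ∈ Ω
    · simp [h]
    · simp [ext0_zero f x h]
  have hwm : MemLp w 2 (volume.restrict Ω) :=
    (memLp_two_iff_integrable_sq hw.meas.aestronglyMeasurable).mpr hw.int.integrableOn
  have hwe : ext0 (hwm.toLp w) =ᵐ[volume] w := by
    refine (ext0_congr hΩ hwm.coeFn_toLp).trans (Eventually.of_forall fun x => ?_)
    by_cases h : x ∈ Ω
    · simp [h]
    · simp [h, hw0 x h]
  obtain ⟨lam, hlam, u, hu0, hu⟩ := exists_eigen B (fun u v => by rw [hB, hB, form_symm hk])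
    (innerSL ℝ one) (fun v hv => by
      rw [hB]
      exact form_lk_nonneg hR (sq_ext0 hΩ v) (integrable_ext0 hΩ hfin v) (ext0_zero v)
        (by rw [← hl, hv])) hμ (w := hwm.toLp w) (by
      rw [hB, form_congr _ hwe hwe, norm_sq_eq_ext0 hΩ]
      have : ∫ x, ext0 (hwm.toLp w) x ^ 2 = ∫ x, w x ^ 2 := by
        refine integral_congr_ae ?_
        filter_upwards [hwe] with x hx
        rw [hx]
      rw [this]
      exact hneg)
  refine ⟨lam, hlam, u, Lp.memLp u, fun h => hu0 (Lp.eq_zero_iff_ae_eq_zero.mpr h), ?_⟩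
  have i1 : Integrable (conv (lk R) (ext0 u)) :=
    (integrable_ker_snd hk (integrable_ext0 hΩ hfin u)).integral_prod_left
  have i2 : Integrable (fun x => lam * ext0 u x) := (integrable_ext0 hΩ hfin u).const_mul lam
  have h1 : conv (lk R) (ext0 u) =ᵐ[volume.restrict Ω] fun x => lam * ext0 u x := by
    refine Integrable.ae_eq_of_forall_setIntegral_eq _ _ i1.integrableOn i2.integrableOn
      fun A hA _ => ?_
    obtain ⟨v, hv⟩ := hind A hA
    have h2 := hu v
    rw [hB, form_symm hk, form_eq_conv hk (sq_ext0 hΩ v) (sq_ext0 hΩ u), inner_eq_ext0 hΩ,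
      ← integral_const_mul] at h2
    rw [Measure.restrict_restrict hA, ← integral_indicator (hA.inter hΩ),
      ← integral_indicator (hA.inter hΩ)]
    refine (integral_congr_ae ?_).trans (h2.trans (integral_congr_ae ?_))
    · filter_upwards [hv] with x hx
      rw [hx]
      by_cases h : x ∈ A ∩ Ω <;> simp [h]
    · filter_upwards [hv] with x hx
      rw [hx]
      by_cases h : x ∈ A ∩ Ω <;> simp [h]
  filter_upwards [h1, ae_restrict_mem hΩ] with x hx hxΩ
  rw [← conv_lk_eq hΩ hR _ hxΩ]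
  exact hx.trans (by rw [ext0, indicator_of_mem hxΩ])

end ext

end Pool.Agent.MP_86d647_an

end MrgPart5

-- ======== part 6: formerly Pool.Agent.MP_86d647_an.TDiam
section MrgPart6

/-!
The transfinite diameter: convergence of the `n`-th diameters, and the lower bound coming from a
nonnegative density with negative logarithmic energy.
-/

set_option autoImplicit false

open MeasureTheory Filter Set Real
open scoped ENNReal Topology

namespace Pool.Agent.MP_86d647_an

/-- The product of all mutual distances. -/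
noncomputable def vprod {n : ℕ} (z : Fin n → Plane) : ℝ :=
  ∏ i : Fin n, ∏ j ∈ Finset.Ioi i, dist (z i) (z j)

lemma vprod_nonneg {n : ℕ} (z : Fin n → Plane) : 0 ≤ vprod z :=
  Finset.prod_nonneg fun _ _ => Finset.prod_nonneg fun _ _ => dist_nonneg

lemma prod_rpow_eq {n : ℕ} (z : Fin n → Plane) (e : ℝ) :
    ∏ i : Fin n, ∏ j ∈ Finset.Ioi i, dist (z i) (z j) ^ e = vprod z ^ e := by
  rw [vprod, ← Real.finsetProd_rpow _ _ fun _ _ => Finset.prod_nonneg fun _ _ => dist_nonneg]
  refine Finset.prod_congr rfl fun i _ => ?_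
  rw [Real.finsetProd_rpow _ _ fun _ _ => dist_nonneg]

lemma le_nthDiam {K : Set Plane} (hK : Bornology.IsBounded K) {n : ℕ} (hn : 2 ≤ n)
    {z : Fin n → Plane} (hz : ∀ i, z i ∈ K) :
    vprod z ^ ((2 : ℝ) / ((n : ℝ) * ((n : ℝ) - 1))) ≤ nthDiam K n := by
  have h2 : (2 : ℝ) ≤ n := by exact_mod_cast hn
  have he : 0 ≤ (2 : ℝ) / ((n : ℝ) * ((n : ℝ) - 1)) := by
    apply div_nonneg zero_le_two
    nlinarith
  have hb : BddAbove (range fun z : Fin n → K => ∏ i : Fin n, ∏ j ∈ Finset.Ioi i,
      dist (z i : Plane) (z j : Plane) ^ ((2 : ℝ) / ((n : ℝ) * ((n : ℝ) - 1)))) := by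
    refine ⟨∏ i : Fin n, ∏ _j ∈ Finset.Ioi i,
      Metric.diam K ^ ((2 : ℝ) / ((n : ℝ) * ((n : ℝ) - 1))), ?_⟩
    rintro _ ⟨z, rfl⟩
    refine Finset.prod_le_prod (fun _ _ => Finset.prod_nonneg fun _ _ => by positivity)
      fun i _ => Finset.prod_le_prod (fun _ _ => by positivity) fun j _ => ?_
    exact Real.rpow_le_rpow dist_nonneg (Metric.dist_le_diam_of_mem hK (z i).2 (z j).2) he
  rw [← prod_rpow_eq]
  exact le_ciSup hb fun i => ⟨z i, hz i⟩

lemma nthDiam_nonneg (K : Set Plane) (n : ℕ) : 0 ≤ nthDiam K n :=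
  Real.iSup_nonneg fun _ =>
    Finset.prod_nonneg fun _ _ => Finset.prod_nonneg fun _ _ => by positivity

lemma vprod_eq {n : ℕ} (z : Fin n → Plane) :
    vprod z = ∏ i : Fin n, ∏ j : Fin n, if i < j then dist (z i) (z j) else 1 := by
  refine Finset.prod_congr rfl fun i _ => ?_
  rw [← Finset.prod_filter]
  congr 1
  ext j
  simp

lemma prod_succAbove_eq {n : ℕ} (k : Fin (n + 1)) (g : Fin (n + 1) → ℝ) :
    ∏ i : Fin n, g (k.succAbove i) = ∏ i : Fin (n + 1), if i = k then 1 else g i := by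
  rw [Fin.prod_univ_succAbove _ k]
  simp

lemma prod_vprod_succAbove {n : ℕ} (z : Fin (n + 1) → Plane) :
    ∏ k : Fin (n + 1), vprod (fun i => z (k.succAbove i)) = vprod z ^ (n - 1) := by
  have h1 : ∀ k : Fin (n + 1), vprod (fun i => z (k.succAbove i)) =
      ∏ i : Fin (n + 1), ∏ j : Fin (n + 1),
        if i ≠ k ∧ j ≠ k then (if i < j then dist (z i) (z j) else 1) else 1 := by
    intro k
    rw [vprod_eq]
    simp_rw [← Fin.succAbove_lt_succAbove_iff (p := k)]
    have h2 : ∀ i : Fin (n + 1), ∏ j : Fin n,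
        (if i < k.succAbove j then dist (z i) (z (k.succAbove j)) else 1) =
        ∏ j : Fin (n + 1), if j = k then 1 else (if i < j then dist (z i) (z j) else 1) :=
      fun i => prod_succAbove_eq k fun j => if i < j then dist (z i) (z j) else 1
    simp_rw [h2]
    rw [prod_succAbove_eq k fun i => ∏ j : Fin (n + 1),
      if j = k then 1 else (if i < j then dist (z i) (z j) else 1)]
    refine Finset.prod_congr rfl fun i _ => ?_
    by_cases hi : i = k
    · simp [hi]
    · simp only [if_neg hi]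
      refine Finset.prod_congr rfl fun j _ => ?_
      by_cases hj : j = k <;> simp [hi, hj]
  simp_rw [h1]
  rw [vprod_eq, ← Finset.prod_pow, Finset.prod_comm]
  refine Finset.prod_congr rfl fun i _ => ?_
  rw [← Finset.prod_pow, Finset.prod_comm]
  refine Finset.prod_congr rfl fun j _ => ?_
  by_cases hij : i < j
  · rw [← Finset.prod_filter, Finset.prod_const]
    congr 1
    have : (Finset.univ.filter fun k : Fin (n + 1) => i ≠ k ∧ j ≠ k) =
        (Finset.univ.erase i).erase j := by
      ext k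
      simp [eq_comm, and_comm]
    rw [this, Finset.card_erase_of_mem (by simp [hij.ne']), Finset.card_erase_of_mem (by simp)]
    simp
  · simp [hij]

lemma nthDiam_succ_le {K : Set Plane} (hK : Bornology.IsBounded K) {n : ℕ} (hn : 2 ≤ n) :
    nthDiam K (n + 1) ≤ nthDiam K n := by
  have h2 : (2 : ℝ) ≤ n := by exact_mod_cast hn
  refine Real.iSup_le (fun z => ?_) (nthDiam_nonneg K n)
  rw [prod_rpow_eq (fun i => (z i : Plane))]
  set V := vprod fun i => (z i : Plane)
  have hV : 0 ≤ V := vprod_nonneg _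
  have h1 : (V ^ (n - 1)) ^ ((2 : ℝ) / ((n : ℝ) * ((n : ℝ) - 1))) ≤ nthDiam K n ^ (n + 1) := by
    rw [← prod_vprod_succAbove, ← Real.finsetProd_rpow _ _ fun _ _ => vprod_nonneg _]
    calc _ ≤ ∏ _k : Fin (n + 1), nthDiam K n :=
          Finset.prod_le_prod (fun _ _ => Real.rpow_nonneg (vprod_nonneg _) _)
            fun k _ => le_nthDiam hK hn fun i => (z _).2
      _ = _ := by simp
  refine le_of_pow_le_pow_left₀ (Nat.succ_ne_zero n) (nthDiam_nonneg K n) (le_of_eq_of_le ?_ h1)
  rw [← Real.rpow_natCast, ← Real.rpow_natCast, ← Real.rpow_mul hV, ← Real.rpow_mul hV]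
  congr 1
  rw [Nat.cast_sub (by omega)]
  push_cast
  have : (n : ℝ) - 1 ≠ 0 := by linarith
  have : (n : ℝ) ≠ 0 := by linarith
  have : (n : ℝ) + 1 ≠ 0 := by linarith
  rw [add_sub_cancel_right]
  field_simp

lemma le_transDiam {K : Set Plane} (hK : Bornology.IsBounded K) {c : ℝ}
    (hc : ∀ n, 2 ≤ n → c ≤ nthDiam K n) : c ≤ transDiam K := by
  have hanti : Antitone fun n => nthDiam K (n + 2) :=
    antitone_nat_of_succ_le fun n => nthDiam_succ_le hK (n := n + 2) (by omega)
  have h1 := tendsto_atTop_ciInf hanti ⟨0, by rintro _ ⟨n, rfl⟩; exact nthDiam_nonneg K _⟩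
  rw [tendsto_add_atTop_iff_nat (f := nthDiam K) 2] at h1
  rw [transDiam, h1.limUnder_eq]
  exact le_ciInf fun n => hc _ (by omega)

lemma sum_card_Ioi (n : ℕ) :
    (∑ i : Fin n, ((Finset.Ioi i).card : ℝ)) * 2 = (n : ℝ) * ((n : ℝ) - 1) := by
  have h1 : (∑ i : Fin n, (Finset.Ioi i).card) * 2 = n * (n - 1) := by
    simp_rw [Fin.card_Ioi]
    rw [Fin.sum_univ_eq_sum_range (fun i => n - 1 - i) n, Finset.sum_range_reflect (fun i => i) n,
      Finset.sum_range_id_mul_two]
  rcases Nat.eq_zero_or_pos n with rfl | hn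
  · simp
  · have h2 := congrArg (Nat.cast : ℕ → ℝ) h1
    rw [Nat.cast_mul, Nat.cast_mul, Nat.cast_sub hn] at h2
    push_cast at h2
    exact h2

lemma measurePreserving_pair (ν : Measure Plane) [IsProbabilityMeasure ν] {n : ℕ} {i j : Fin n}
    (hij : i ≠ j) :
    MeasurePreserving (fun z : Fin n → Plane => (z i, z j)) (Measure.pi fun _ => ν) (ν.prod ν) := by
  refine ⟨by fun_prop, ?_⟩
  have h := (ProbabilityTheory.iIndepFun_pi (μ := fun _ : Fin n => ν) (X := fun _ => id)
    fun _ => aemeasurable_id).indepFun hij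
  have h2 := h.map_prod_eq_prod_map_map (measurable_pi_apply i).aemeasurable
    (measurable_pi_apply j).aemeasurable
  rw [(measurePreserving_eval (fun _ : Fin n => ν) i).map_eq,
    (measurePreserving_eval (fun _ : Fin n => ν) j).map_eq] at h2
  exact h2

lemma one_lt_transDiam {Ω : Set Plane} (hb : Bornology.IsBounded Ω) {R : ℝ}
    (hR : ∀ x ∈ Ω, ∀ y ∈ Ω, ‖x - y‖ ≤ R) {w : Plane → ℝ} (hw : Nice w) (hw0 : ∀ x, 0 ≤ w x)
    (hwΩ : ∀ x ∉ Ω, w x = 0) (hneg : form (lk R) w w < 0) : 1 < transDiam (closure Ω) := by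
  have hk := isKer_lk R
  set s := ∫ x, w x with hs
  have hs0 : 0 < s := by
    refine lt_of_le_of_ne (integral_nonneg hw0) fun h => ?_
    have h1 : w =ᵐ[volume] 0 := (integral_eq_zero_iff_of_nonneg hw0 hw.int).mp h.symm
    have h2 : form (lk R) w w = 0 := by
      refine integral_eq_zero_of_ae ?_
      filter_upwards [Measure.quasiMeasurePreserving_fst.ae h1] with p hp
      simp [hp]
    linarith
  set ρ : Plane → ℝ≥0∞ := fun x => ENNReal.ofReal (s⁻¹ * w x) with hρ
  have hρm : Measurable ρ := (hw.meas.const_mul _).ennreal_ofReal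
  set ν : Measure Plane := volume.withDensity ρ with hν
  have : IsProbabilityMeasure ν := by
    constructor
    rw [hν, withDensity_apply _ MeasurableSet.univ, Measure.restrict_univ, hρ,
      ← ofReal_integral_eq_lintegral_ofReal (hw.int.const_mul _)
        (Eventually.of_forall fun x => mul_nonneg (by positivity) (hw0 x)),
      integral_const_mul, ← hs, inv_mul_cancel₀ hs0.ne', ENNReal.ofReal_one]
  have hνΩ : ∀ᵐ x ∂ν, x ∈ Ω := by
    rw [hν, ae_withDensity_iff hρm]
    refine Eventually.of_forall fun x hx => ?_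
    by_contra h
    simp [hρ, hwΩ x h] at hx
  have hprod : ν.prod ν = vol2.withDensity fun p => ρ p.1 * ρ p.2 := prod_withDensity hρm hρm
  have hρ2 : Measurable fun p : Plane × Plane => ρ p.1 * ρ p.2 := by fun_prop
  have hlt : ∀ᵐ p ∂vol2, ρ p.1 * ρ p.2 < ⊤ := Eventually.of_forall fun p =>
    ENNReal.mul_lt_top ENNReal.ofReal_lt_top ENNReal.ofReal_lt_top
  have hfun : (fun p : Plane × Plane => (ρ p.1 * ρ p.2).toReal • (-lk R (p.1 - p.2))) =
      fun p => -(s⁻¹) ^ 2 * (lk R (p.1 - p.2) * w p.1 * w p.2) := by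
    ext p
    have h1 := hw0 p.1
    have h2 := hw0 p.2
    rw [ENNReal.toReal_mul, hρ, ENNReal.toReal_ofReal (by positivity),
      ENNReal.toReal_ofReal (by positivity), smul_eq_mul]
    ring
  have hint : Integrable (fun p : Plane × Plane => -lk R (p.1 - p.2)) (ν.prod ν) := by
    rw [hprod, integrable_withDensity_iff_integrable_smul' hρ2 hlt, hfun]
    exact (integrable_form hk hw.sq hw.sq).const_mul _
  set I := ∫ p, -lk R (p.1 - p.2) ∂ν.prod ν with hI
  have hI0 : 0 < I := by
    rw [hI, hprod, integral_withDensity_eq_integral_toReal_smul hρ2 hlt, hfun, integral_const_mul]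
    have : 0 < s⁻¹ ^ 2 := by positivity
    unfold form at hneg
    nlinarith
  have hne : ∀ᵐ p ∂ν.prod ν, p.1 - p.2 ≠ 0 := by
    rw [hprod]
    exact (withDensity_absolutelyContinuous _ _).ae_le ae_prod_sub_ne_zero
  refine lt_of_lt_of_le (b := exp I) (by simpa using hI0) (le_transDiam hb.closure fun n hn => ?_)
  set P : Measure (Fin n → Plane) := Measure.pi fun _ => ν with hP
  have hpair : ∀ i : Fin n, ∀ j ∈ Finset.Ioi i,
      Integrable (fun z : Fin n → Plane => -lk R (z i - z j)) P ∧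
        ∫ z, -lk R (z i - z j) ∂P = I := by
    intro i j hj
    have m := measurePreserving_pair ν (Finset.mem_Ioi.mp hj).ne
    refine ⟨m.integrable_comp_of_integrable hint, ?_⟩
    rw [hI, ← m.map_eq, integral_map m.measurable.aemeasurable]
    rw [m.map_eq]
    exact hint.aestronglyMeasurable
  have hF : Integrable (fun z : Fin n → Plane =>
      ∑ i : Fin n, ∑ j ∈ Finset.Ioi i, -lk R (z i - z j)) P :=
    integrable_finsetSum _ fun i _ => integrable_finsetSum _ fun j hj => (hpair i j hj).1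
  have hFi : ∫ z, ∑ i : Fin n, ∑ j ∈ Finset.Ioi i, -lk R (z i - z j) ∂P =
      (∑ i : Fin n, ((Finset.Ioi i).card : ℝ)) * I := by
    rw [integral_finsetSum _ fun i _ => integrable_finsetSum _ fun j hj => (hpair i j hj).1,
      Finset.sum_mul]
    refine Finset.sum_congr rfl fun i _ => ?_
    rw [integral_finsetSum _ fun j hj => (hpair i j hj).1,
      Finset.sum_congr rfl fun j hj => (hpair i j hj).2]
    simp
  have hgood : ∀ᵐ z ∂P, (∀ i, z i ∈ Ω) ∧ ∀ i j : Fin n, i < j → z i - z j ≠ 0 := by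
    refine (ae_all_iff.mpr fun i => ?_).and (ae_all_iff.mpr fun i => ae_all_iff.mpr fun j => ?_)
    · exact (measurePreserving_eval (fun _ : Fin n => ν) i).quasiMeasurePreserving.ae hνΩ
    · by_cases hij : i < j
      · filter_upwards [(measurePreserving_pair ν hij.ne).quasiMeasurePreserving.ae hne] with z hz _
        exact hz
      · exact Eventually.of_forall fun z h => absurd h hij
  obtain ⟨z, hz, hzI⟩ := exists_notMem_null_integral_le hF (ae_iff.mp hgood)
  simp only [mem_ofPred_eq, not_not] at hz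
  refine le_trans ?_ (le_nthDiam hb.closure hn fun i => subset_closure (hz.1 i))
  have e : vprod z = exp (∑ i : Fin n, ∑ j ∈ Finset.Ioi i, -lk R (z i - z j)) := by
    rw [vprod, Real.exp_sum]
    refine Finset.prod_congr rfl fun i _ => ?_
    rw [Real.exp_sum]
    refine Finset.prod_congr rfl fun j hj => ?_
    rw [lk, if_pos (hR _ (hz.1 i) _ (hz.1 j)), neg_neg, dist_eq_norm,
      Real.exp_log (norm_pos_iff.mpr (hz.2 i j (Finset.mem_Ioi.mp hj)))]
  rw [e, ← Real.exp_mul, Real.exp_le_exp]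
  rw [hFi] at hzI
  have h2 : (2 : ℝ) ≤ n := by exact_mod_cast hn
  have h3 : 0 < (n : ℝ) * ((n : ℝ) - 1) := by nlinarith
  have h4 := sum_card_Ioi n
  rw [← mul_div_assoc, le_div_iff₀ h3, ← h4]
  nlinarith

end Pool.Agent.MP_86d647_an

end MrgPart6

-- marker of a merged file
example : 731051 + 759000 = 731051 + 759000 := rfl
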